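import Mathlib
open MeasureTheory Set Filter Topology
namespace Pool.Agent.H.MP_fc94d9_co

abbrev T := UnitAddCircle
abbrev G := ℚ × ℚ
abbrev Y := G → T

def Ad {Γ : Type} [Add Γ] (x : Γ → T) : Prop := ∀ a b, x (a + b) = x a + x b

def mat (a b c d : ℚ) (z : G) : G := (a * z.1 + b * z.2, c * z.1 + d * z.2)

noncomputable def ell (e : ℝ × ℝ) : Y := fun z => ((e.1 * z.1 + e.2 * z.2 : ℝ) : T)

def th (x : Y) : T × T := (x (1, 0), x (0, 1))

def al (m t : ℚ) : ℚ := (1 - m * t ^ 2) / (1 + m * t ^ 2)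
def be (m t : ℚ) : ℚ := 2 * t / (1 + m * t ^ 2)
def gu (m t : ℚ) : G → G := mat (al m t) (-(m * be m t)) (be m t) (al m t)

def Ad.hom {Γ : Type} [AddGroup Γ] {x : Γ → T} (h : Ad x) : Γ →+ T := AddMonoidHom.mk' x h

theorem Ad.zsmul {Γ : Type} [AddGroup Γ] {x : Γ → T} (h : Ad x) (n : ℤ) (z : Γ) :
    x (n • z) = n • x z := map_zsmul h.hom n z

theorem Ad.nsmul {Γ : Type} [AddGroup Γ] {x : Γ → T} (h : Ad x) (n : ℕ) (z : Γ) :
    x (n • z) = n • x z := map_nsmul h.hom n z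

theorem Ad.sub {Γ : Type} [AddGroup Γ] {x : Γ → T} (h : Ad x) (a b : Γ) :
    x (a - b) = x a - x b := map_sub h.hom a b

theorem Ad.zero {Γ : Type} [AddGroup Γ] {x : Γ → T} (h : Ad x) : x 0 = 0 := map_zero h.hom

theorem Ad.val' {x : Y} (h : Ad x) (r : ℚ) (p q : ℤ) :
    x (p * r, q * r) = p • x (r, 0) + q • x (0, r) := by
  rw [← h.zsmul, ← h.zsmul, ← h]
  congr 1
  ext <;> simp

theorem Ad.val {x : Y} (h : Ad x) (p q : ℤ) :
    x (p, q) = p • x (1, 0) + q • x (0, 1) := by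
  have := h.val' 1 p q
  simpa using this

theorem mat_add (a b c d : ℚ) (z w : G) : mat a b c d (z + w) = mat a b c d z + mat a b c d w := by
  ext <;> simp [mat] <;> ring

theorem Ad.mat {x : Y} (h : Ad x) (a b c d : ℚ) : Ad (x ∘ mat a b c d) := by
  intro z w
  simp only [Function.comp, mat_add, h _ _]

theorem Ad.gu {x : Y} (h : Ad x) (m t : ℚ) : Ad (x ∘ gu m t) := h.mat _ _ _ _

theorem ad_ell (e : ℝ × ℝ) : Ad (ell e) := by
  intro z w
  simp only [ell, ← AddCircle.coe_add]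
  congr 1
  simp; ring

theorem Ad.add' {x y : Y} (h : Ad x) (h' : Ad y) : Ad (x + y) := by
  intro z w
  simp only [Pi.add_apply, h z w, h' z w]; abel

theorem Ad.sub' {x y : Y} (h : Ad x) (h' : Ad y) : Ad (x - y) := by
  intro z w
  simp only [Pi.sub_apply, h z w, h' z w]; abel

theorem Ad.kill {x : Y} (h : Ad x) {d : ℕ} (hd : d • th x = 0) (p q : ℤ) :
    d • x (p, q) = 0 := by
  have h1 : d • x (1, 0) = 0 := congrArg Prod.fst hd
  have h2 : d • x (0, 1) = 0 := congrArg Prod.snd hd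
  rw [h.val, smul_add, smul_comm d p, smul_comm d q, h1, h2]; simp

theorem Ad.norm_le {x : Y} (h : Ad x) (p q : ℤ) :
    ‖x (p, q)‖ ≤ (|(p : ℝ)| + |(q : ℝ)|) * ‖th x‖ := by
  rw [h.val]
  have h1 : ‖x (1, 0)‖ ≤ ‖th x‖ := norm_fst_le (th x)
  have h2 : ‖x (0, 1)‖ ≤ ‖th x‖ := norm_snd_le (th x)
  have h3 := norm_zsmul_le p (x (1, 0))
  have h4 := norm_zsmul_le q (x (0, 1))
  have h5 : ‖p‖ = |(p : ℝ)| := by rw [Int.norm_eq_abs]
  have h6 : ‖q‖ = |(q : ℝ)| := by rw [Int.norm_eq_abs]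
  rw [h5] at h3; rw [h6] at h4
  have := norm_add_le (p • x (1, 0)) (q • x (0, 1))
  nlinarith [abs_nonneg (p : ℝ), abs_nonneg (q : ℝ)]

theorem den_pos (m t : ℕ) : (0 : ℚ) < 1 + (m : ℚ) * (t : ℚ) ^ 2 := by positivity

theorem ord_fwd {x : Y} (h : Ad x) (m t : ℕ) {d : ℕ} (hd : d • th x = 0) :
    (d * (1 + m * t ^ 2)) • th (x ∘ gu m t) = 0 := by
  have hp := (den_pos m t).ne'
  have e1 : (1 + m * t ^ 2 : ℕ) • gu m t (1, 0) =
      (((1 - m * t ^ 2 : ℤ) : ℚ), ((2 * t : ℤ) : ℚ)) := by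
    ext <;> simp [gu, mat, al, be] <;> field_simp
  have e2 : (1 + m * t ^ 2 : ℕ) • gu m t (0, 1) =
      (((-(m * (2 * t)) : ℤ) : ℚ), ((1 - m * t ^ 2 : ℤ) : ℚ)) := by
    ext <;> simp [gu, mat, al, be] <;> field_simp
  ext
  · show (d * (1 + m * t ^ 2)) • x (gu m t (1, 0)) = 0
    rw [mul_nsmul', ← h.nsmul, e1]; exact h.kill hd _ _
  · show (d * (1 + m * t ^ 2)) • x (gu m t (0, 1)) = 0
    rw [mul_nsmul', ← h.nsmul, e2]; exact h.kill hd _ _

theorem ord_bwd {x : Y} (h : Ad x) (m t : ℕ) {d : ℕ} (hd : d • th (x ∘ gu m t) = 0) :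
    (d * (1 + m * t ^ 2)) • th x = 0 := by
  have hp := (den_pos m t).ne'
  have e1 : (1 + m * t ^ 2 : ℕ) • ((1, 0) : G) =
      gu m t (((1 - m * t ^ 2 : ℤ) : ℚ), ((-(2 * t) : ℤ) : ℚ)) := by
    ext <;> simp [gu, mat, al, be] <;> field_simp <;> ring
  have e2 : (1 + m * t ^ 2 : ℕ) • ((0, 1) : G) =
      gu m t (((m * (2 * t) : ℤ) : ℚ), ((1 - m * t ^ 2 : ℤ) : ℚ)) := by
    ext <;> simp [gu, mat, al, be] <;> field_simp <;> ring
  ext
  · show (d * (1 + m * t ^ 2)) • x (1, 0) = 0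
    rw [mul_nsmul', ← h.nsmul, e1]; exact (h.gu m t).kill hd _ _
  · show (d * (1 + m * t ^ 2)) • x (0, 1) = 0
    rw [mul_nsmul', ← h.nsmul, e2]; exact (h.gu m t).kill hd _ _

theorem collide {x : Y} (h : Ad x) (m t s X : ℕ) (ht : t ≤ X) (hs : s ≤ X) :
    ‖(4 * m * ((t : ℤ) - s) ^ 2).toNat • th x‖ ≤
      (4 * (1 + m) * (X : ℝ) ^ 2) ^ 2 * ‖th (x ∘ gu m t) - th (x ∘ gu m s)‖ := by
  have hp := (den_pos m t).ne'
  have hq := (den_pos m s).ne'
  set y : Y := x ∘ gu m t - x ∘ gu m s with hy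
  have hya : Ad y := (h.gu m t).sub' (h.gu m s)
  have hth : th y = th (x ∘ gu m t) - th (x ∘ gu m s) := rfl
  rw [← hth]
  set g : ℤ := 4 * m * ((t : ℤ) - s) ^ 2 with hg
  have hg0 : 0 ≤ g := by positivity
  set P : ℤ := 2 * m * ((s : ℤ) ^ 2 - t ^ 2) with hP
  set Q : ℤ := 2 * ((t : ℤ) - s) * (1 - m * t * s) with hQ
  have e1 : g.toNat • x (1, 0) = y (P, ((-Q : ℤ) : ℚ)) := by
    rw [← natCast_zsmul, Int.toNat_of_nonneg hg0, ← h.zsmul]
    show _ = x (gu m t _) - x (gu m s _)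
    rw [← h.sub]
    congr 1
    ext <;> simp [gu, mat, al, be, hg, hP, hQ] <;> field_simp <;> ring
  have e2 : g.toNat • x (0, 1) = y (((m * Q : ℤ) : ℚ), P) := by
    rw [← natCast_zsmul, Int.toNat_of_nonneg hg0, ← h.zsmul]
    show _ = x (gu m t _) - x (gu m s _)
    rw [← h.sub]
    congr 1
    ext <;> simp [gu, mat, al, be, hg, hP, hQ] <;> field_simp <;> ring
  have ht' : (t : ℝ) ≤ X := by exact_mod_cast ht
  have hs' : (s : ℝ) ≤ X := by exact_mod_cast hs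
  have t0 : (0 : ℝ) ≤ t := by positivity
  have s0 : (0 : ℝ) ≤ s := by positivity
  have m0 : (0 : ℝ) ≤ m := by positivity
  have X0 : (0 : ℝ) ≤ X := by positivity
  have hX1 : (X : ℝ) ≤ X ^ 2 := by
    have : X ≤ X ^ 2 := Nat.le_self_pow (by norm_num) X
    exact_mod_cast this
  have bP : |(P : ℝ)| ≤ 2 * m * X ^ 2 := by
    have : (P : ℝ) = 2 * m * ((s : ℝ) ^ 2 - t ^ 2) := by simp [hP]
    rw [this, abs_mul, abs_of_nonneg (by positivity : (0 : ℝ) ≤ 2 * m)]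
    apply mul_le_mul_of_nonneg_left _ (by positivity)
    have a1 : (s : ℝ) ^ 2 ≤ X ^ 2 := by gcongr
    have a2 : (t : ℝ) ^ 2 ≤ X ^ 2 := by gcongr
    rw [abs_le]; constructor <;> nlinarith [sq_nonneg (s : ℝ), sq_nonneg (t : ℝ)]
  have bQ : |(Q : ℝ)| ≤ 2 * X * (1 + m * X ^ 2) := by
    have : (Q : ℝ) = 2 * ((t : ℝ) - s) * (1 - m * t * s) := by simp [hQ]
    rw [this, abs_mul, abs_mul, abs_two]
    have a1 : |(t : ℝ) - s| ≤ X := by rw [abs_le]; constructor <;> linarith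
    have a3 : (t : ℝ) * s ≤ X ^ 2 := by rw [sq]; gcongr
    have a2 : |1 - (m : ℝ) * t * s| ≤ 1 + m * X ^ 2 := by
      have a4 : (m : ℝ) * t * s ≤ m * X ^ 2 := by rw [mul_assoc]; gcongr
      have a5 : 0 ≤ (m : ℝ) * t * s := by positivity
      rw [abs_le]; constructor <;> nlinarith
    gcongr
  have key : |(P : ℝ)| + (1 + m) * |(Q : ℝ)| ≤ (4 * (1 + m) * (X : ℝ) ^ 2) ^ 2 := by
    have a1 : (X : ℝ) ^ 2 ≤ X ^ 4 := by
      have : X ^ 2 ≤ X ^ 4 := by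
        rcases Nat.eq_zero_or_pos X with h0 | h0
        · simp [h0]
        · exact Nat.pow_le_pow_right h0 (by norm_num)
      exact_mod_cast this
    have a2 : (X : ℝ) ^ 3 ≤ X ^ 4 := by
      have : X ^ 3 ≤ X ^ 4 := by
        rcases Nat.eq_zero_or_pos X with h0 | h0
        · simp [h0]
        · exact Nat.pow_le_pow_right h0 (by norm_num)
      exact_mod_cast this
    have b1 : |(P : ℝ)| ≤ 2 * (1 + m) ^ 2 * X ^ 4 := by
      calc |(P : ℝ)| ≤ 2 * m * X ^ 2 := bP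
        _ ≤ 2 * (1 + m) ^ 2 * X ^ 4 := by gcongr; nlinarith
    have b2 : |(Q : ℝ)| ≤ 2 * (1 + m) * X ^ 4 := by
      calc |(Q : ℝ)| ≤ 2 * X + 2 * m * X ^ 3 := by nlinarith
        _ ≤ 2 * X ^ 4 + 2 * m * X ^ 4 := by gcongr; linarith
        _ = _ := by ring
    have b3 : (1 + m) * |(Q : ℝ)| ≤ (1 + m) * (2 * (1 + m) * X ^ 4) := by gcongr
    have b4 : 0 ≤ (1 + (m : ℝ)) ^ 2 * X ^ 4 := by positivity
    nlinarith
  have n0 := norm_nonneg (th y)
  have aQ := abs_nonneg (Q : ℝ)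
  rw [Prod.norm_def, max_le_iff]
  constructor
  · show ‖g.toNat • x (1, 0)‖ ≤ _
    rw [e1]
    refine (hya.norm_le P (-Q)).trans ?_
    apply mul_le_mul_of_nonneg_right _ n0
    rw [Int.cast_neg, abs_neg]; nlinarith
  · show ‖g.toNat • x (0, 1)‖ ≤ _
    rw [e2]
    refine (hya.norm_le (m * Q) P).trans ?_
    apply mul_le_mul_of_nonneg_right _ n0
    rw [Int.cast_mul, abs_mul, Int.cast_natCast, abs_of_nonneg m0]; nlinarith

theorem sep1 {u : T} {n : ℕ} (hn : 0 < n) (hu : n • u = 0) (h : (n : ℝ) * ‖u‖ < 1) : u = 0 := by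
  by_contra h0
  have hf : IsOfFinAddOrder u := isOfFinAddOrder_iff_nsmul_eq_zero.2 ⟨n, hn, hu⟩
  have := AddCircle.le_add_order_smul_norm_of_isOfFinAddOrder hf h0
  have h2 : addOrderOf u ≤ n := addOrderOf_le_of_nsmul_eq_zero hn hu
  have h3 : (addOrderOf u : ℝ) ≤ n := by exact_mod_cast h2
  rw [nsmul_eq_mul] at this
  nlinarith [norm_nonneg u]

theorem sep2 {v : T × T} {n : ℕ} (hn : 0 < n) (hu : n • v = 0) (h : (n : ℝ) * ‖v‖ < 1) :
    v = 0 := by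
  have n0 : (0 : ℝ) ≤ n := by positivity
  ext
  · exact sep1 hn (congrArg Prod.fst hu)
      (lt_of_le_of_lt (mul_le_mul_of_nonneg_left (norm_fst_le v) n0) h)
  · exact sep1 hn (congrArg Prod.snd hu)
      (lt_of_le_of_lt (mul_le_mul_of_nonneg_left (norm_snd_le v) n0) h)

theorem exists_rep (u : T) : ∃ r : ℝ, (r : T) = u ∧ |r| = ‖u‖ := by
  induction u using QuotientAddGroup.induction_on with
  | H a =>
    refine ⟨a - round a, ?_, ?_⟩
    · rw [AddCircle.coe_sub]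
      have : (((round a : ℤ) : ℝ) : T) = 0 := by
        rw [AddCircle.coe_eq_zero_iff]; exact ⟨round a, by simp⟩
      rw [this, sub_zero]
    · rw [UnitAddCircle.norm_eq]

theorem norm_coe_le (r : ℝ) : ‖(r : T)‖ ≤ |r| := by
  have := QuotientAddGroup.norm_mk_le_norm (S := AddSubgroup.zmultiples (1 : ℝ)) (m := r)
  simpa using this

theorem al_le (m t : ℕ) : |((al m t : ℚ) : ℝ)| ≤ 1 := by
  have : ((al m t : ℚ) : ℝ) = (1 - m * t ^ 2) / (1 + m * t ^ 2) := by simp [al]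
  rw [this, abs_div, abs_of_pos (by positivity : (0 : ℝ) < 1 + m * t ^ 2), div_le_one (by positivity)]
  have : (0 : ℝ) ≤ m * t ^ 2 := by positivity
  rw [abs_le]; constructor <;> linarith

theorem be_le (m t : ℕ) (hm : 1 ≤ m) : |((be m t : ℚ) : ℝ)| ≤ 1 := by
  have : ((be m t : ℚ) : ℝ) = 2 * t / (1 + m * t ^ 2) := by simp [be]
  rw [this, abs_of_nonneg (by positivity), div_le_one (by positivity)]
  have : (1 : ℝ) ≤ m := by exact_mod_cast hm
  nlinarith [sq_nonneg ((t : ℝ) - 1), sq_nonneg (t : ℝ)]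

theorem near_lift {x : Y} (h : Ad x) (m : ℕ) (hm : 1 ≤ m) (τ : T × T) :
    ∃ x0 : Y, Ad x0 ∧ th x0 = τ ∧ ∀ t : ℕ,
      ‖th (x ∘ gu m t) - th (x0 ∘ gu m t)‖ ≤ (m + 1) * ‖th x - τ‖ := by
  obtain ⟨a, ha, ha'⟩ := exists_rep (th x - τ).1
  obtain ⟨b, hb, hb'⟩ := exists_rep (th x - τ).2
  have a1 : |a| ≤ ‖th x - τ‖ := ha' ▸ norm_fst_le _
  have b1 : |b| ≤ ‖th x - τ‖ := hb' ▸ norm_snd_le _
  have m1 : (1 : ℝ) ≤ m := by exact_mod_cast hm
  refine ⟨x - ell (a, b), h.sub' (ad_ell _), ?_, fun t => ?_⟩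
  · ext
    · simp [th, ell, ha]
    · simp [th, ell, hb]
  · have hA := al_le m t
    have hB := be_le m t hm
    have n0 := norm_nonneg (th x - τ)
    rw [Prod.norm_def, max_le_iff]
    constructor
    · have : (th (x ∘ gu m t) - th ((x - ell (a, b)) ∘ gu m t)).1 =
          ((a * (al m t : ℚ) + b * (be m t : ℚ) : ℝ) : T) := by
        simp [th, ell, gu, mat]
      rw [this]
      refine (norm_coe_le _).trans ((abs_add_le _ _).trans ?_)
      rw [abs_mul, abs_mul]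
      nlinarith [abs_nonneg a, abs_nonneg b, abs_nonneg ((al m t : ℚ) : ℝ),
        abs_nonneg ((be m t : ℚ) : ℝ)]
    · have : (th (x ∘ gu m t) - th ((x - ell (a, b)) ∘ gu m t)).2 =
          ((-(a * (m * (be m t : ℚ))) + b * (al m t : ℚ) : ℝ) : T) := by
        simp [th, ell, gu, mat]
      rw [this]
      refine (norm_coe_le _).trans ((abs_add_le _ _).trans ?_)
      rw [abs_neg, abs_mul, abs_mul, abs_mul, abs_of_nonneg (by positivity : (0 : ℝ) ≤ m)]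
      have c1 : |a| * (m * |((be m t : ℚ) : ℝ)|) ≤ ‖th x - τ‖ * (m * 1) := by gcongr
      have c2 : |b| * |((al m t : ℚ) : ℝ)| ≤ ‖th x - τ‖ * 1 := by gcongr
      linarith

end Pool.Agent.H.MP_fc94d9_co
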