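import Mathlib
import Pool.Agent.H.MP_fc94d9_co.A
open MeasureTheory Set Filter Topology
open scoped ENNReal
namespace Pool.Agent.H.MP_fc94d9_co

def Near (ρ : ℝ) (lo hi : ℕ) : Set Y :=
  {x | ∃ τ : T × T, lo < addOrderOf τ ∧ addOrderOf τ ≤ hi ∧ ‖th x - τ‖ ≤ ρ}

theorem fin_tors (n : ℕ) (hn : 0 < n) : {τ : T × T | n • τ = 0}.Finite := by
  refine ((AddCircle.finite_torsion (1 : ℝ) hn).prod (AddCircle.finite_torsion (1 : ℝ) hn)).subset ?_
  intro τ h
  exact ⟨congrArg Prod.fst h, congrArg Prod.snd h⟩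

theorem fin_ord (lo hi : ℕ) : {τ : T × T | lo < addOrderOf τ ∧ addOrderOf τ ≤ hi}.Finite := by
  refine (fin_tors hi.factorial (Nat.factorial_pos _)).subset ?_
  rintro τ ⟨h1, h2⟩
  exact addOrderOf_dvd_iff_nsmul_eq_zero.1 (Nat.dvd_factorial (by omega) h2)

theorem cont_th : Continuous th := by
  unfold th; fun_prop

theorem closed_Near (ρ : ℝ) (lo hi : ℕ) : IsClosed (Near ρ lo hi) := by
  have : Near ρ lo hi = ⋃ τ ∈ {τ : T × T | lo < addOrderOf τ ∧ addOrderOf τ ≤ hi},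
      {x | ‖th x - τ‖ ≤ ρ} := by
    ext x; simp [Near, and_assoc]
  rw [this]
  refine (fin_ord lo hi).isClosed_biUnion fun τ _ => ?_
  exact isClosed_le (cont_th.sub continuous_const).norm continuous_const

theorem meas_comp (g : G → G) : Measurable (fun x : Y => x ∘ g) :=
  measurable_pi_lambda _ fun z => measurable_pi_apply (g z)

open Classical in
theorem markov (m : ℕ) (lam : Measure Y)
    (hinv : ∀ t : ℕ, MeasurePreserving (fun x : Y => x ∘ gu m t) lam lam)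
    {Gd C : Set Y} (hG : MeasurableSet Gd) (hC : MeasurableSet C) (B : Set Y) (V : ℕ) (hV : 0 < V)
    (h : ∀ᵐ x ∂lam, x ∈ B → (∀ t < 2 * V, x ∘ gu m t ∈ C) ∧
      ((Finset.range (2 * V)).filter (fun t : ℕ => x ∘ gu m t ∈ Gd)).card ≤ V) :
    lam B ≤ 2 * lam (C ∩ Gdᶜ) := by
  have hD : MeasurableSet (C ∩ Gdᶜ) := hC.inter hG.compl
  set f : Y → ℝ≥0∞ := fun x => ∑ t ∈ Finset.range (2 * V),
    ((fun x : Y => x ∘ gu m t) ⁻¹' (C ∩ Gdᶜ)).indicator 1 x with hf
  have hfm : Measurable f := Finset.measurable_sum _ fun t _ =>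
    measurable_one.indicator (meas_comp _ hD)
  have h1 : ∫⁻ x, f x ∂lam = (2 * V : ℕ) * lam (C ∩ Gdᶜ) := by
    rw [hf, lintegral_finset_sum _ fun t _ => measurable_one.indicator (meas_comp _ hD)]
    rw [Finset.sum_congr rfl fun t _ => lintegral_indicator_one (meas_comp _ hD)]
    rw [Finset.sum_congr rfl fun t _ => (hinv t).measure_preimage hD.nullMeasurableSet]
    simp
  have h2 : lam B ≤ lam {x | (V : ℝ≥0∞) ≤ f x} := by
    apply measure_mono_ae
    filter_upwards [h] with x hx hB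
    obtain ⟨h3, h4⟩ := hx hB
    show (V : ℝ≥0∞) ≤ f x
    have h5 := Finset.card_filter_add_card_filter_not (s := Finset.range (2 * V))
      (fun t : ℕ => x ∘ gu m t ∈ Gd)
    rw [Finset.card_range] at h5
    have h6 : V ≤ ((Finset.range (2 * V)).filter (fun t : ℕ => ¬ x ∘ gu m t ∈ Gd)).card := by omega
    calc (V : ℝ≥0∞) ≤ (((Finset.range (2 * V)).filter
          (fun t : ℕ => ¬ x ∘ gu m t ∈ Gd)).card : ℝ≥0∞) := by exact_mod_cast h6
      _ = ∑ t ∈ (Finset.range (2 * V)).filter (fun t : ℕ => ¬ x ∘ gu m t ∈ Gd), (1 : ℝ≥0∞) := by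
          simp
      _ = ∑ t ∈ (Finset.range (2 * V)).filter (fun t : ℕ => ¬ x ∘ gu m t ∈ Gd),
          ((fun x : Y => x ∘ gu m t) ⁻¹' (C ∩ Gdᶜ)).indicator 1 x := by
          refine Finset.sum_congr rfl fun t ht => ?_
          rw [Finset.mem_filter, Finset.mem_range] at ht
          rw [Set.indicator_of_mem]; · rfl
          exact ⟨h3 t ht.1, ht.2⟩
      _ ≤ f x := Finset.sum_le_sum_of_subset (Finset.filter_subset _ _)
  have h3 := mul_meas_ge_le_lintegral (μ := lam) hfm (V : ℝ≥0∞)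
  rw [h1] at h3
  have h4 : (V : ℝ≥0∞) * lam B ≤ V * (2 * lam (C ∩ Gdᶜ)) := by
    calc (V : ℝ≥0∞) * lam B ≤ V * lam {x | (V : ℝ≥0∞) ≤ f x} := by gcongr
      _ ≤ _ := h3
      _ = _ := by push_cast; ring
  exact (ENNReal.mul_le_mul_iff_right (by exact_mod_cast hV.ne') (by simp)).1 h4

theorem sum_disj (lam : Measure Y) (C : ℕ → Set Y) (hC : ∀ j, MeasurableSet (C j)) (J : ℕ)
    (hd : ∀ j j', j + 2 ≤ j' → j' < J → Disjoint (C j) (C j')) (D : Set Y)
    (hD : MeasurableSet D) : ∑ j ∈ Finset.range J, lam (C j ∩ D) ≤ 2 * lam D := by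
  have key : ∀ r : ℕ, ∑ j ∈ (Finset.range J).filter (fun j => j % 2 = r), lam (C j ∩ D) ≤ lam D := by
    intro r
    rw [← measure_biUnion_finset]
    · apply measure_mono
      intro x hx
      simp only [mem_iUnion] at hx
      obtain ⟨j, _, hj⟩ := hx
      exact hj.2
    · intro j hj j' hj' hne
      simp only [Finset.coe_filter, Finset.mem_range, mem_setOf_eq] at hj hj'
      rcases lt_or_gt_of_ne hne with h | h
      · exact (hd j j' (by omega) hj'.1).mono inter_subset_left inter_subset_left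
      · exact (hd j' j (by omega) hj.1).symm.mono inter_subset_left inter_subset_left
    · exact fun j _ => (hC j).inter hD
  rw [← Finset.sum_filter_add_sum_filter_not (Finset.range J) (fun j => j % 2 = 0), two_mul]
  refine add_le_add (key 0) ?_
  have : (Finset.range J).filter (fun j => ¬ j % 2 = 0) =
      (Finset.range J).filter (fun j => j % 2 = 1) := by
    apply Finset.filter_congr; intro j _; omega
  rw [this]; exact key 1

theorem b_le {m t V H : ℕ} (ht : t < 2 * V) (hV : 16 * (1 + m) * V ^ 2 ≤ H) :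
    1 + m * t ^ 2 ≤ H := by
  have h1 : t ^ 2 ≤ (2 * V) ^ 2 := by gcongr
  have h2 : 1 ≤ V := by omega
  have h3 : m * t ^ 2 ≤ m * (2 * V) ^ 2 := by gcongr
  have h4 : 1 ≤ V ^ 2 := Nat.one_le_pow _ _ h2
  nlinarith

theorem g_le {m t s V H : ℕ} (hm : 1 ≤ m) (ht : t < 2 * V) (hs : s < 2 * V) (hne : t ≠ s)
    (hV : 16 * (1 + m) * V ^ 2 ≤ H) :
    0 < (4 * m * ((t : ℤ) - s) ^ 2).toNat ∧ (4 * m * ((t : ℤ) - s) ^ 2).toNat ≤ H := by
  have h0 : (t : ℤ) - s ≠ 0 := by omega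
  have h1 : 0 < ((t : ℤ) - s) ^ 2 := by positivity
  have hm' : (1 : ℤ) ≤ m := by exact_mod_cast hm
  have h2 : ((t : ℤ) - s) ^ 2 ≤ (2 * V) ^ 2 := by
    apply sq_le_sq'  <;> omega
  have hV' : (16 * (1 + m) * V ^ 2 : ℤ) ≤ H := by exact_mod_cast hV
  constructor
  · have : 0 < 4 * (m : ℤ) * ((t : ℤ) - s) ^ 2 := by positivity
    omega
  · have : 4 * (m : ℤ) * ((t : ℤ) - s) ^ 2 ≤ H := by
      have h3 : 4 * (m : ℤ) * ((t : ℤ) - s) ^ 2 ≤ 4 * m * (2 * V) ^ 2 := by gcongr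
      nlinarith [sq_nonneg (V : ℤ)]
    omega

theorem top_near {m V H : ℕ} (hm : 1 ≤ m) (hV : 16 * (1 + m) * V ^ 2 ≤ H) {x : Y} (hx : Ad x)
    {t s : ℕ} (ht : t < 2 * V) (hs : s < 2 * V) (hne : t ≠ s) {η : ℝ}
    (h : ‖th (x ∘ gu m t) - th (x ∘ gu m s)‖ ≤ η) : x ∈ Near (H ^ 2 * η) 0 H := by
  obtain ⟨g0, g1⟩ := g_le hm ht hs hne hV
  have hc := collide hx m t s (2 * V) ht.le hs.le
  set g := (4 * m * ((t : ℤ) - s) ^ 2).toNat
  have hH : (4 * (1 + m) * ((2 * V : ℕ) : ℝ) ^ 2) ≤ H := by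
    have : ((16 * (1 + m) * V ^ 2 : ℕ) : ℝ) ≤ H := by exact_mod_cast hV
    push_cast at this ⊢; nlinarith
  have hb : ‖g • th x‖ ≤ H ^ 2 * η := hc.trans (by gcongr)
  obtain ⟨a, ha, ha'⟩ := exists_rep (g • th x).1
  obtain ⟨b, hb1, hb'⟩ := exists_rep (g • th x).2
  have a1 : |a| ≤ H ^ 2 * η := (ha' ▸ norm_fst_le _ : |a| ≤ ‖g • th x‖).trans hb
  have b1 : |b| ≤ H ^ 2 * η := (hb' ▸ norm_snd_le _ : |b| ≤ ‖g • th x‖).trans hb
  have gR : (1 : ℝ) ≤ g := by exact_mod_cast g0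
  set e : T × T := (((a / g : ℝ) : T), ((b / g : ℝ) : T)) with he
  have hge : g • (th x - e) = 0 := by
    rw [smul_sub, sub_eq_zero]
    ext
    · rw [← ha]; show _ = g • ((a / g : ℝ) : T)
      rw [← AddCircle.coe_nsmul]; congr 1; rw [nsmul_eq_mul]; field_simp
    · rw [← hb1]; show _ = g • ((b / g : ℝ) : T)
      rw [← AddCircle.coe_nsmul]; congr 1; rw [nsmul_eq_mul]; field_simp
  refine ⟨th x - e, ?_, (addOrderOf_le_of_nsmul_eq_zero g0 hge).trans g1, ?_⟩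
  · exact (isOfFinAddOrder_iff_nsmul_eq_zero.2 ⟨g, g0, hge⟩).addOrderOf_pos
  · rw [sub_sub_cancel, Prod.norm_def, max_le_iff]
    constructor
    · refine (norm_coe_le _).trans ?_
      rw [abs_div, abs_of_pos (by linarith : (0 : ℝ) < g)]
      exact (div_le_self (abs_nonneg _) gR).trans a1
    · refine (norm_coe_le _).trans ?_
      rw [abs_div, abs_of_pos (by linarith : (0 : ℝ) < g)]
      exact (div_le_self (abs_nonneg _) gR).trans b1

theorem mid_near {m V H : ℕ} (hm : 1 ≤ m) (hV : 16 * (1 + m) * V ^ 2 ≤ H) {x : Y} (hx : Ad x)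
    {ρ η : ℝ} (hB : x ∈ Near ρ (H ^ 3) (H ^ 6))
    (hs : (H : ℝ) ^ 8 * (η + 2 * ((m + 1) * ρ)) < 1) :
    (∀ t < 2 * V, x ∘ gu m t ∈ Near ((m + 1) * ρ) (H ^ 2) (H ^ 7)) ∧
    (∀ t < 2 * V, ∀ s < 2 * V, t ≠ s → ¬ ‖th (x ∘ gu m t) - th (x ∘ gu m s)‖ ≤ η) := by
  obtain ⟨τ, h1, h2, h3⟩ := hB
  obtain ⟨x0, ha, hth, hcl⟩ := near_lift hx m hm τ
  have hcl' : ∀ t : ℕ, ‖th (x ∘ gu m t) - th (x0 ∘ gu m t)‖ ≤ (m + 1) * ρ := fun t =>
    (hcl t).trans (by gcongr)
  set d := addOrderOf τ with hd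
  have d0 : 0 < d := by omega
  have hd0 : d • th x0 = 0 := by rw [hth]; exact addOrderOf_nsmul_eq_zero τ
  have H0 : 0 < H := by
    rcases Nat.eq_zero_or_pos H with h | h
    · subst h; simp at h2; omega
    · exact h
  constructor
  · intro t ht
    have hb := b_le ht hV
    have f1 := ord_fwd ha m t hd0
    have p1 : 0 < d * (1 + m * t ^ 2) := by positivity
    refine ⟨th (x0 ∘ gu m t), ?_, ?_, hcl' t⟩
    · have f2 := ord_bwd ha m t (addOrderOf_nsmul_eq_zero (th (x0 ∘ gu m t)))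
      have p2 : 0 < addOrderOf (th (x0 ∘ gu m t)) :=
        (isOfFinAddOrder_iff_nsmul_eq_zero.2 ⟨_, p1, f1⟩).addOrderOf_pos
      rw [hth] at f2
      have f3 : d ≤ _ := addOrderOf_le_of_nsmul_eq_zero (by positivity) f2
      by_contra hcon
      push Not at hcon
      have : addOrderOf (th (x0 ∘ gu m t)) * (1 + m * t ^ 2) ≤ H ^ 2 * H := by gcongr
      have e : H ^ 2 * H = H ^ 3 := by ring
      omega
    · refine (addOrderOf_le_of_nsmul_eq_zero p1 f1).trans ?_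
      calc d * (1 + m * t ^ 2) ≤ H ^ 6 * H := by gcongr
        _ = H ^ 7 := by ring
  · intro t ht s hs' hne hcon
    have hb := b_le ht hV
    have hb' := b_le hs' hV
    have f1 := ord_fwd ha m t hd0
    have f2 := ord_fwd ha m s hd0
    set v := th (x0 ∘ gu m t) - th (x0 ∘ gu m s) with hv
    set n := d * (1 + m * t ^ 2) * (1 + m * s ^ 2) with hn
    have n0 : 0 < n := by positivity
    have hnv : n • v = 0 := by
      have e1 : n • th (x0 ∘ gu m t) = 0 := by rw [hn, mul_nsmul, f1, smul_zero]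
      have e2 : n • th (x0 ∘ gu m s) = 0 := by
        rw [hn, mul_right_comm, mul_nsmul, f2, smul_zero]
      rw [hv, smul_sub, e1, e2, sub_zero]
    have nle : n ≤ H ^ 8 := by
      calc n ≤ H ^ 6 * H * H := by rw [hn]; gcongr
        _ = H ^ 8 := by ring
    have nle' : (n : ℝ) ≤ H ^ 8 := by exact_mod_cast nle
    have vle : ‖v‖ ≤ η + 2 * ((m + 1) * ρ) := by
      have e : v = (th (x ∘ gu m t) - th (x ∘ gu m s)) - (th (x ∘ gu m t) - th (x0 ∘ gu m t))
          + (th (x ∘ gu m s) - th (x0 ∘ gu m s)) := by rw [hv]; abel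
      rw [e]
      have := norm_add_le ((th (x ∘ gu m t) - th (x ∘ gu m s)) -
        (th (x ∘ gu m t) - th (x0 ∘ gu m t))) (th (x ∘ gu m s) - th (x0 ∘ gu m s))
      have := norm_sub_le (th (x ∘ gu m t) - th (x ∘ gu m s))
        (th (x ∘ gu m t) - th (x0 ∘ gu m t))
      linarith [hcl' t, hcl' s]
    have v0 : v = 0 := sep2 n0 hnv (lt_of_le_of_lt (by gcongr) hs)
    have hc := collide ha m t s (2 * V) ht.le hs'.le
    rw [← hv, v0, norm_zero, mul_zero, norm_le_zero_iff, hth] at hc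
    obtain ⟨g0, g1⟩ := g_le hm ht hs' hne hV
    have := addOrderOf_le_of_nsmul_eq_zero g0 hc
    have : H ≤ H ^ 3 := Nat.le_self_pow (by norm_num) H
    omega

theorem near_disj {ρ : ℝ} {a b c d : ℕ} (hbc : b ≤ c) (h : (b * d : ℕ) * (2 * ρ) < 1) :
    Disjoint (Near ρ a b) (Near ρ c d) := by
  rw [Set.disjoint_left]
  rintro x ⟨τ, h1, h2, h3⟩ ⟨σ, h4, h5, h6⟩
  have hn : (addOrderOf τ * addOrderOf σ) • (τ - σ) = 0 := by
    have e1 : (addOrderOf τ * addOrderOf σ) • τ = 0 := by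
      rw [mul_nsmul, addOrderOf_nsmul_eq_zero, smul_zero]
    have e2 : (addOrderOf τ * addOrderOf σ) • σ = 0 := by
      rw [mul_comm, mul_nsmul, addOrderOf_nsmul_eq_zero, smul_zero]
    rw [smul_sub, e1, e2, sub_zero]
  have hle : ‖τ - σ‖ ≤ 2 * ρ := by
    have e : τ - σ = (th x - σ) - (th x - τ) := by abel
    rw [e]; linarith [norm_sub_le (th x - σ) (th x - τ)]
  have hle2 : ((addOrderOf τ * addOrderOf σ : ℕ) : ℝ) ≤ (b * d : ℕ) := by
    exact_mod_cast Nat.mul_le_mul h2 h5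
  have := sep2 (Nat.mul_pos (by omega) (by omega)) hn (lt_of_le_of_lt (by gcongr) h)
  rw [sub_eq_zero] at this
  subst this
  omega

end Pool.Agent.H.MP_fc94d9_co
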