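import Mathlib
import Pool.Agent.H.MP_fc94d9_co.B
open MeasureTheory Set Filter Topology
open scoped ENNReal
namespace Pool.Agent.H.MP_fc94d9_co

theorem find_scale (H : ℕ → ℕ) (hH : ∀ j, H (j + 1) = H j ^ 2) (d J : ℕ) (h : d ≤ H J ^ 3) :
    d ≤ H 0 ^ 3 ∨ ∃ j < J, H j ^ 3 < d ∧ d ≤ H j ^ 6 := by
  induction J with
  | zero => exact Or.inl h
  | succ J ih =>
    by_cases h1 : d ≤ H J ^ 3
    · rcases ih h1 with h2 | ⟨j, h2, h3⟩
      · exact Or.inl h2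
      · exact Or.inr ⟨j, by omega, h3⟩
    · refine Or.inr ⟨J, by omega, by omega, ?_⟩
      rw [hH, ← pow_mul] at h; exact h

open Classical in
theorem EF_level (m : ℕ) (hm : 1 ≤ m) (lam : Measure Y) (had : ∀ᵐ x ∂lam, Ad x)
    (hinv : ∀ t : ℕ, MeasurePreserving (fun x : Y => x ∘ gu m t) lam lam)
    {Gd : Set Y} (hG : MeasurableSet Gd) (H V : ℕ → ℕ) (η : ℕ → ℝ)
    (hH : ∀ j, H (j + 1) = H j ^ 2) (hVp : ∀ j, 0 < V j)
    (hV : ∀ j, 16 * (1 + m) * V j ^ 2 ≤ H j) (hη0 : ∀ j, 0 ≤ η j)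
    (hη : ∀ j, η j * (H j : ℝ) ^ 12 ≤ 1 / 2)
    (cover : ∀ j (F : Finset ℕ) (y : ℕ → Y), (∀ t ∈ F, Ad (y t) ∧ y t ∈ Gd) → V j < F.card →
      ∃ t ∈ F, ∃ s ∈ F, t ≠ s ∧ ‖th (y t) - th (y s)‖ ≤ η j) (J : ℕ) :
    lam (Near (H J ^ 2 * η J) 0 (H 0 ^ 3))ᶜ ≤ 6 * lam Gdᶜ := by
  set ρ : ℝ := H J ^ 2 * η J with hρ
  have hbig : ∀ j, 16 * (1 + m) ≤ H j := fun j => by
    have : 1 ≤ V j ^ 2 := Nat.one_le_pow _ _ (hVp j)
    nlinarith [hV j]
  have hmono : Monotone H := monotone_nat_of_le_succ fun j => by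
    rw [hH]; exact Nat.le_self_pow (by norm_num) _
  have hbigR : ∀ j, 16 * (1 + (m : ℝ)) ≤ H j := fun j => by exact_mod_cast hbig j
  have m0 : (1 : ℝ) ≤ m := by exact_mod_cast hm
  have hρ2 : (H J : ℝ) ^ 8 * (2 * ((m + 1) * ρ)) ≤ 1 / 4 := by
    have h1 := hbigR J
    have h2 := hη J
    have h3 := hη0 J
    have h4 : (32 : ℝ) ≤ H J := by linarith
    have h5 : 0 ≤ η J * (H J : ℝ) ^ 10 := by positivity
    have h6 : 4 * ((m : ℝ) + 1) ≤ (H J : ℝ) ^ 2 := by nlinarith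
    have h7 : η J * (H J : ℝ) ^ 10 * (4 * ((m : ℝ) + 1)) ≤ η J * (H J : ℝ) ^ 10 * (H J : ℝ) ^ 2 := by
      gcongr
    have e1 : η J * (H J : ℝ) ^ 10 * (H J : ℝ) ^ 2 = η J * (H J : ℝ) ^ 12 := by ring
    have e2 : (H J : ℝ) ^ 8 * (2 * ((m + 1) * ρ)) =
        η J * (H J : ℝ) ^ 10 * (4 * ((m : ℝ) + 1)) / 2 := by rw [hρ]; ring
    linarith
  have ρ0 : 0 ≤ ρ := by have := hη0 J; positivity
  set E : Set Y := {x | V J < ((Finset.range (2 * V J)).filter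
    (fun t : ℕ => x ∘ gu m t ∈ Gd)).card} with hE
  have hEc : lam Eᶜ ≤ 2 * lam Gdᶜ := by
    have := markov m lam hinv hG MeasurableSet.univ Eᶜ (V J) (hVp J)
      (Eventually.of_forall fun x hx => ⟨fun _ _ => mem_univ _, not_lt.1 hx⟩)
    simpa using this
  have hB : ∀ j < J, lam (Near ρ (H j ^ 3) (H j ^ 6)) ≤
      2 * lam (Near ((m + 1) * ρ) (H j ^ 2) (H j ^ 7) ∩ Gdᶜ) := by
    intro j hj
    apply markov m lam hinv hG (closed_Near _ _ _).measurableSet _ (V j) (hVp j)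
    filter_upwards [had] with x hx hxB
    have hs : (H j : ℝ) ^ 8 * (η j + 2 * ((m + 1) * ρ)) < 1 := by
      have h1 : (H j : ℝ) ≤ H J := by exact_mod_cast hmono hj.le
      have h2 : (H j : ℝ) ^ 8 * (2 * ((m + 1) * ρ)) ≤ (H J : ℝ) ^ 8 * (2 * ((m + 1) * ρ)) := by
        gcongr
      have h3 : (1 : ℝ) ≤ H j := by linarith [hbigR j]
      have h4 : (H j : ℝ) ^ 8 ≤ (H j : ℝ) ^ 12 := pow_le_pow_right₀ h3 (by norm_num)
      have h5 : η j * (H j : ℝ) ^ 8 ≤ η j * (H j : ℝ) ^ 12 := by have := hη0 j; gcongr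
      nlinarith [hη j]
    obtain ⟨h1, h2⟩ := mid_near hm (hV j) hx hxB hs
    refine ⟨h1, ?_⟩
    by_contra hcon
    push Not at hcon
    obtain ⟨t, ht, s, hs', hne, hcl⟩ := cover j _ (fun t => x ∘ gu m t)
      (fun t ht => ⟨hx.gu _ _, (Finset.mem_filter.1 ht).2⟩) hcon
    exact h2 t (Finset.mem_range.1 (Finset.mem_filter.1 ht).1) s
      (Finset.mem_range.1 (Finset.mem_filter.1 hs').1) hne hcl
  have hsum := sum_disj lam (fun j => Near ((m + 1) * ρ) (H j ^ 2) (H j ^ 7))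
    (fun j => (closed_Near _ _ _).measurableSet) J (fun j j' h1 h2 => by
      have a1 : H j ^ 4 ≤ H j' := by
        have := hmono h1
        rw [hH, hH, ← pow_mul] at this; exact this
      have a2 : H j' ^ 2 ≤ H J := by rw [← hH]; exact hmono h2
      have a3 : 1 ≤ H j := by have := hbig j; omega
      have a4 : H j ≤ H j' := hmono (by omega)
      apply near_disj
      · calc H j ^ 7 ≤ H j ^ 8 := Nat.pow_le_pow_right a3 (by norm_num)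
          _ = (H j ^ 4) ^ 2 := by ring
          _ ≤ _ := by gcongr
      · have a5 : H j ^ 7 * H j' ^ 7 ≤ H J ^ 8 := by
          calc H j ^ 7 * H j' ^ 7 ≤ H j' ^ 7 * H j' ^ 7 := by gcongr
            _ = (H j' ^ 2) ^ 7 := by ring
            _ ≤ H J ^ 7 := by gcongr
            _ ≤ H J ^ 8 := Nat.pow_le_pow_right (by have := hbig J; omega) (by norm_num)
        have a6 : ((H j ^ 7 * H j' ^ 7 : ℕ) : ℝ) ≤ (H J : ℝ) ^ 8 := by exact_mod_cast a5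
        have a7 : ((H j ^ 7 * H j' ^ 7 : ℕ) : ℝ) * (2 * ((m + 1) * ρ)) ≤
            (H J : ℝ) ^ 8 * (2 * ((m + 1) * ρ)) := by gcongr
        linarith) Gdᶜ hG.compl
  have hsub : lam (Near ρ 0 (H 0 ^ 3))ᶜ ≤
      lam (Eᶜ ∪ ⋃ j ∈ Finset.range J, Near ρ (H j ^ 3) (H j ^ 6)) := by
    apply measure_mono_ae
    filter_upwards [had] with x hx hn
    by_cases hxE : x ∈ E
    · right
      obtain ⟨t, ht, s, hs', hne, hcl⟩ := cover J _ (fun t => x ∘ gu m t)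
        (fun t ht => ⟨hx.gu _ _, (Finset.mem_filter.1 ht).2⟩) hxE
      obtain ⟨τ, h1, h2, h3⟩ := top_near hm (hV J) hx
        (Finset.mem_range.1 (Finset.mem_filter.1 ht).1)
        (Finset.mem_range.1 (Finset.mem_filter.1 hs').1) hne hcl
      rcases find_scale H hH (addOrderOf τ) J
        (h2.trans (Nat.le_self_pow (by norm_num) _)) with h4 | ⟨j, h4, h5, h6⟩
      · exact absurd ⟨τ, h1, h4, h3⟩ hn
      · simp only [mem_iUnion]
        exact ⟨j, Finset.mem_range.2 h4, τ, h5, h6, h3⟩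
    · exact Or.inl hxE
  calc lam (Near ρ 0 (H 0 ^ 3))ᶜ ≤ _ := hsub
    _ ≤ lam Eᶜ + ∑ j ∈ Finset.range J, lam (Near ρ (H j ^ 3) (H j ^ 6)) :=
        (measure_union_le _ _).trans (add_le_add le_rfl (measure_biUnion_finset_le _ _))
    _ ≤ 2 * lam Gdᶜ + ∑ j ∈ Finset.range J,
        2 * lam (Near ((m + 1) * ρ) (H j ^ 2) (H j ^ 7) ∩ Gdᶜ) :=
        add_le_add hEc (Finset.sum_le_sum fun j hj => hB j (Finset.mem_range.1 hj))
    _ ≤ 2 * lam Gdᶜ + 2 * (2 * lam Gdᶜ) := by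
        rw [← Finset.mul_sum]; gcongr
    _ = 6 * lam Gdᶜ := by ring

theorem EF (m : ℕ) (hm : 1 ≤ m) (lam : Measure Y) (had : ∀ᵐ x ∂lam, Ad x)
    (hinv : ∀ t : ℕ, MeasurePreserving (fun x : Y => x ∘ gu m t) lam lam)
    {Gd : Set Y} (hG : MeasurableSet Gd) (H V : ℕ → ℕ) (η : ℕ → ℝ)
    (hH : ∀ j, H (j + 1) = H j ^ 2) (hVp : ∀ j, 0 < V j)
    (hV : ∀ j, 16 * (1 + m) * V j ^ 2 ≤ H j) (hη0 : ∀ j, 0 ≤ η j)
    (hη : ∀ j, η j * (H j : ℝ) ^ 12 ≤ 1 / 2)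
    (cover : ∀ j (F : Finset ℕ) (y : ℕ → Y), (∀ t ∈ F, Ad (y t) ∧ y t ∈ Gd) → V j < F.card →
      ∃ t ∈ F, ∃ s ∈ F, t ≠ s ∧ ‖th (y t) - th (y s)‖ ≤ η j) :
    lam {x | ¬ IsOfFinAddOrder (th x)} ≤ 6 * lam Gdᶜ := by
  have hbig : ∀ j, j + 2 ≤ H j := by
    intro j
    induction j with
    | zero =>
      have : 1 ≤ V 0 ^ 2 := Nat.one_le_pow _ _ (hVp 0)
      nlinarith [hV 0]
    | succ j ih => rw [hH]; nlinarith
  have h1 : ∀ i : ℕ, lam (Near (1 / (i + 1)) 0 (H 0 ^ 3))ᶜ ≤ 6 * lam Gdᶜ := by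
    intro i
    refine le_trans (measure_mono (compl_subset_compl.2 ?_))
      (EF_level m hm lam had hinv hG H V η hH hVp hV hη0 hη cover i)
    rintro x ⟨τ, a1, a2, a3⟩
    refine ⟨τ, a1, a2, a3.trans ?_⟩
    have b1 : (i : ℝ) + 2 ≤ H i := by exact_mod_cast hbig i
    have b2 : (1 : ℝ) ≤ H i := by have : (0 : ℝ) ≤ i := by positivity
                                  linarith
    have b3 : (H i : ℝ) ^ 3 ≤ (H i : ℝ) ^ 12 := pow_le_pow_right₀ b2 (by norm_num)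
    have b4 := hη0 i
    have b5 : η i * (H i : ℝ) ^ 3 ≤ η i * (H i : ℝ) ^ 12 := by gcongr
    rw [le_div_iff₀ (by positivity)]
    have b6 : (H i : ℝ) ^ 2 * η i * (i + 1) ≤ (H i : ℝ) ^ 2 * η i * H i := by
      gcongr; linarith
    nlinarith [hη i]
  have h2 : {x | ¬ IsOfFinAddOrder (th x)} ⊆ ⋃ i : ℕ, (Near (1 / (i + 1)) 0 (H 0 ^ 3))ᶜ := by
    intro x hx
    by_contra hcon
    simp only [mem_iUnion, not_exists, mem_compl_iff, not_not] at hcon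
    apply hx
    have hcl := (fin_ord 0 (H 0 ^ 3)).isClosed
    have : th x ∈ closure {τ : T × T | 0 < addOrderOf τ ∧ addOrderOf τ ≤ H 0 ^ 3} := by
      rw [Metric.mem_closure_iff]
      intro ε hε
      obtain ⟨i, hi⟩ := exists_nat_one_div_lt hε
      obtain ⟨τ, a1, a2, a3⟩ := hcon i
      exact ⟨τ, ⟨a1, a2⟩, by rw [dist_eq_norm]; exact lt_of_le_of_lt a3 hi⟩
    rw [hcl.closure_eq] at this
    exact addOrderOf_pos_iff.1 this.1
  refine (measure_mono h2).trans ?_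
  rw [Monotone.measure_iUnion]
  · exact iSup_le h1
  · intro i j hij
    apply compl_subset_compl.2
    rintro x ⟨τ, a1, a2, a3⟩
    refine ⟨τ, a1, a2, a3.trans ?_⟩
    have : (i : ℝ) ≤ j := by exact_mod_cast hij
    gcongr

end Pool.Agent.H.MP_fc94d9_co
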