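import Mathlib
import Pool.Agent.H.MP_fc94d9_co.C
open MeasureTheory Set Filter Topology
open scoped ENNReal
namespace Pool.Agent.H.MP_fc94d9_co

noncomputable def rep (u : T) : ℝ := (AddCircle.equivIco 1 0 u : ℝ)

theorem rep_nonneg (u : T) : 0 ≤ rep u := (AddCircle.equivIco 1 0 u).2.1
theorem rep_lt (u : T) : rep u < 1 := by
  have : rep u < 0 + 1 := (AddCircle.equivIco 1 0 u).2.2
  linarith
theorem coe_rep (u : T) : ((rep u : ℝ) : T) = u := AddCircle.coe_equivIco
theorem rep_coe (r : ℝ) : rep (r : T) = Int.fract r := by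
  have := AddCircle.coe_equivIco_mk_apply (p := (1 : ℝ)) r
  rw [div_one, mul_one] at this; exact this
theorem meas_rep : Measurable rep :=
  measurable_subtype_coe.comp (AddCircle.measurableEquivIco 1 0).measurable

noncomputable def sv (x : Y) : ℝ × ℝ := (rep (x (1, 0)), rep (x (0, 1)))
noncomputable def kap (x : Y) : Y := x - ell (sv x)
def dbl (n : ℕ) : G → G := mat (2 ^ n) 0 0 (2 ^ n)
noncomputable def cell (n : ℕ) (s : ℝ × ℝ) : ℕ × ℕ := (⌊2 ^ n * s.1⌋₊, ⌊2 ^ n * s.2⌋₊)
def cells (n : ℕ) : Finset (ℕ × ℕ) := Finset.range (2 ^ n) ×ˢ Finset.range (2 ^ n)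
def st (q : ℕ) (κ : Y) : T × T := (κ (1 / q, 0), κ (0, 1 / q))
noncomputable def nxt (n q : ℕ) (σ : T × T) (c : ℕ × ℕ) : T × T :=
  (2 ^ n • σ.1 + ((c.1 / q : ℝ) : T), 2 ^ n • σ.2 + ((c.2 / q : ℝ) : T))

theorem cont_ell : Continuous ell := by
  refine continuous_pi fun z => ?_
  exact (AddCircle.continuous_mk' 1).comp (by fun_prop)

theorem meas_sv : Measurable sv :=
  (meas_rep.comp (measurable_pi_apply ((1, 0) : G))).prodMk
    (meas_rep.comp (measurable_pi_apply ((0, 1) : G)))

theorem meas_kap : Measurable kap := measurable_id.sub (cont_ell.measurable.comp meas_sv)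

theorem meas_cell (n : ℕ) : Measurable (cell n) := by
  unfold cell; fun_prop

theorem Ad.kap {x : Y} (h : Ad x) : Ad (kap x) := h.sub' (ad_ell _)

theorem floor_lt (n : ℕ) (u : T) : ⌊2 ^ n * rep u⌋₊ < 2 ^ n := by
  rw [Nat.floor_lt (by have := rep_nonneg u; positivity)]
  push_cast
  have := rep_lt u
  have h2 : (0 : ℝ) < 2 ^ n := by positivity
  nlinarith

theorem cell_mem (n : ℕ) (x : Y) : cell n (sv x) ∈ cells n := by
  simp only [cells, cell, sv, Finset.mem_product, Finset.mem_range]
  exact ⟨floor_lt _ _, floor_lt _ _⟩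

theorem rep_pow (n : ℕ) (u : T) : rep (2 ^ n • u) = 2 ^ n * rep u - ⌊2 ^ n * rep u⌋₊ := by
  conv_lhs => rw [← coe_rep u, ← AddCircle.coe_nsmul, rep_coe]
  have h0 : (0 : ℝ) ≤ 2 ^ n * rep u := by have := rep_nonneg u; positivity
  rw [nsmul_eq_mul, Int.fract, natCast_floor_eq_intCast_floor h0]
  push_cast; rfl

theorem dbl_eq (n : ℕ) (z : G) : dbl n z = 2 ^ n • z := by
  ext <;> simp [dbl, mat]

theorem Ad.dbl {x : Y} (h : Ad x) (n : ℕ) : Ad (x ∘ dbl n) := h.mat _ _ _ _

theorem sv_dbl {x : Y} (h : Ad x) (n : ℕ) : sv (x ∘ dbl n) =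
    (2 ^ n * (sv x).1 - (cell n (sv x)).1, 2 ^ n * (sv x).2 - (cell n (sv x)).2) := by
  simp only [sv, Function.comp, dbl_eq, h.nsmul, rep_pow, cell]

theorem st_dbl {x : Y} (h : Ad x) (n q : ℕ) :
    st q (kap (x ∘ dbl n)) = nxt n q (st q (kap x)) (cell n (sv x)) := by
  ext
  · simp only [st, kap, nxt, Pi.sub_apply, sv_dbl h, Function.comp, dbl_eq, h.nsmul, ell, smul_sub,
      ← AddCircle.coe_nsmul]
    rw [sub_add, ← AddCircle.coe_sub]
    congr 2
    simp; ring
  · simp only [st, kap, nxt, Pi.sub_apply, sv_dbl h, Function.comp, dbl_eq, h.nsmul, ell, smul_sub,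
      ← AddCircle.coe_nsmul]
    rw [sub_add, ← AddCircle.coe_sub]
    congr 2
    simp; ring

theorem th_kap (x : Y) : th (kap x) = 0 := by
  ext <;> simp [th, kap, ell, sv, coe_rep]

theorem st_tors {x : Y} (h : Ad x) {q : ℕ} (hq : 0 < q) : q • st q (kap x) = 0 := by
  have hq' : (q : ℚ) ≠ 0 := by positivity
  have h0 := th_kap x
  ext
  · show q • kap x (1 / q, 0) = 0
    rw [← h.kap.nsmul]
    have : q • ((1 / q, 0) : G) = (1, 0) := by ext <;> simp [hq']
    rw [this]; exact congrArg Prod.fst h0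
  · show q • kap x (0, 1 / q) = 0
    rw [← h.kap.nsmul]
    have : q • ((0, 1 / q) : G) = (0, 1) := by ext <;> simp [hq']
    rw [this]; exact congrArg Prod.snd h0

open Classical in
noncomputable def cnt (S : Y → Y) (bad : Set Y) : ℕ → Y → ℕ
  | 0, _ => 0
  | k + 1, x => (if x ∈ bad then 1 else 0) + cnt S bad k (S x)

open Classical in
noncomputable def mx (S : Y → Y) (bad : Set Y) (D : ℕ) : ℕ → Y → ℕ
  | 0, _ => 0
  | k + 1, x => D * (if x ∈ bad then 1 else 0) + mx S bad D k (S x) - 1

theorem cnt_le_mx (S : Y → Y) (bad : Set Y) (D k : ℕ) (x : Y) :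
    D * cnt S bad k x ≤ mx S bad D k x + k := by
  induction k generalizing x with
  | zero => simp [cnt]
  | succ k ih =>
    have := ih (S x)
    simp only [cnt, mx, mul_add]; omega

theorem mx_mono (S : Y → Y) (bad : Set Y) (D k : ℕ) (x : Y) :
    mx S bad D k x ≤ mx S bad D (k + 1) x := by
  induction k generalizing x with
  | zero => simp [mx]
  | succ k ih =>
    have := ih (S x)
    rw [mx, mx]; omega

theorem mx_le (S : Y → Y) (bad : Set Y) (D k : ℕ) (x : Y) : mx S bad D k x ≤ D * k := by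
  induction k generalizing x with
  | zero => simp [mx]
  | succ k ih =>
    have := ih (S x)
    rw [mx, mul_add]; split_ifs <;> omega

open Classical in
theorem meas_cnt {S : Y → Y} (hS : Measurable S) {bad : Set Y} (hb : MeasurableSet bad) (k : ℕ) :
    Measurable (cnt S bad k) := by
  induction k with
  | zero => exact measurable_const
  | succ k ih =>
    exact (measurable_of_countable (fun p : ℕ × ℕ => p.1 + p.2)).comp
      ((Measurable.ite hb measurable_const measurable_const).prodMk (ih.comp hS))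

open Classical in
theorem meas_mx {S : Y → Y} (hS : Measurable S) {bad : Set Y} (hb : MeasurableSet bad) (D k : ℕ) :
    Measurable (mx S bad D k) := by
  induction k with
  | zero => exact measurable_const
  | succ k ih =>
    exact (measurable_of_countable (fun p : ℕ × ℕ => D * p.1 + p.2 - 1)).comp
      ((Measurable.ite hb measurable_const measurable_const).prodMk (ih.comp hS))

theorem maximal (lam : Measure Y) [IsFiniteMeasure lam] {S : Y → Y}
    (hS : MeasurePreserving S lam lam) {bad : Set Y} (hb : MeasurableSet bad) (D : ℕ) :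
    lam {x | ∀ k, D * cnt S bad k x ≤ k}ᶜ ≤ D * lam bad := by
  have key : ∀ k, lam {x | 0 < mx S bad D (k + 1) x} ≤ D * lam bad := by
    intro k
    have hm := meas_mx hS.measurable hb D (k + 1)
    have hm' : Measurable fun x => (mx S bad D (k + 1) x : ℝ≥0∞) :=
      (measurable_of_countable (fun p : ℕ => (p : ℝ≥0∞))).comp hm
    have hE : MeasurableSet {x | 0 < mx S bad D (k + 1) x} := measurableSet_lt measurable_const hm
    have hfin : ∫⁻ x, (mx S bad D (k + 1) x : ℝ≥0∞) ∂lam ≠ ⊤ := by
      refine ne_top_of_le_ne_top (b := ∫⁻ _, ((D * (k + 1) : ℕ) : ℝ≥0∞) ∂lam) ?_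
        (lintegral_mono fun x => Nat.cast_le.2 (mx_le S bad D (k + 1) x))
      rw [lintegral_const]; exact ENNReal.mul_ne_top (ENNReal.natCast_ne_top _) (measure_ne_top _ _)
    have h1 : ∫⁻ x, ((mx S bad D (k + 1) x : ℝ≥0∞) +
        {x | 0 < mx S bad D (k + 1) x}.indicator 1 x) ∂lam ≤
        ∫⁻ x, ((mx S bad D (k + 1) (S x) : ℝ≥0∞) + D * bad.indicator 1 x) ∂lam := by
      refine lintegral_mono fun x => ?_
      have h2 := mx_mono S bad D k (S x)
      by_cases hx : 0 < mx S bad D (k + 1) x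
      · rw [Set.indicator_of_mem (show x ∈ {x | 0 < mx S bad D (k + 1) x} from hx)]
        by_cases hxb : x ∈ bad
        · rw [Set.indicator_of_mem hxb]
          have : mx S bad D (k + 1) x + 1 ≤ mx S bad D (k + 1) (S x) + D := by
            rw [mx] at hx ⊢; simp only [hxb, if_true] at hx ⊢; omega
          simp only [Pi.one_apply, mul_one]; exact_mod_cast this
        · rw [Set.indicator_of_notMem hxb]
          have : mx S bad D (k + 1) x + 1 ≤ mx S bad D (k + 1) (S x) := by
            rw [mx] at hx ⊢; simp only [hxb, if_false] at hx ⊢; omega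
          simp only [Pi.one_apply, mul_zero, add_zero]; exact_mod_cast this
      · rw [Set.indicator_of_notMem (show x ∉ {x | 0 < mx S bad D (k + 1) x} from hx)]
        have : mx S bad D (k + 1) x = 0 := by omega
        simp [this]
    have hm2 : Measurable fun x => (mx S bad D (k + 1) (S x) : ℝ≥0∞) := hm'.comp hS.measurable
    rw [lintegral_add_left hm', lintegral_add_left hm2,
      lintegral_indicator_one hE, lintegral_const_mul _ (measurable_one.indicator hb),
      lintegral_indicator_one hb, hS.lintegral_comp hm'] at h1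
    exact (ENNReal.add_le_add_iff_left hfin).1 h1
  have h2 : {x | ∀ k, D * cnt S bad k x ≤ k}ᶜ ⊆ ⋃ k, {x | 0 < mx S bad D (k + 1) x} := by
    intro x hx
    simp only [mem_compl_iff, mem_setOf_eq, not_forall, not_le] at hx
    obtain ⟨k, hk⟩ := hx
    have := cnt_le_mx S bad D k x
    have := mx_mono S bad D k x
    exact mem_iUnion.2 ⟨k, show 0 < _ by omega⟩
  refine (measure_mono h2).trans ?_
  rw [Monotone.measure_iUnion]
  · exact iSup_le key
  · exact monotone_nat_of_le_succ fun k x hx => lt_of_lt_of_le hx (mx_mono _ _ _ _ _)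

end Pool.Agent.H.MP_fc94d9_co
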