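import Mathlib
import Pool.Agent.H.MP_fc94d9_co.D
open MeasureTheory Set Filter Topology ProbabilityTheory
open scoped ENNReal symmDiff
namespace Pool.Agent.H.MP_fc94d9_co

noncomputable def code (n : ℕ) : ℕ → Y → List (ℕ × ℕ)
  | 0, _ => []
  | k + 1, y => cell n (sv y) :: code n k (y ∘ dbl n)

open Classical in
noncomputable def Gs (n q : ℕ) (Λ : T × T → Finset (ℕ × ℕ)) :
    ℕ → T × T → ℕ → Finset (List (ℕ × ℕ))
  | 0, _, _ => {[]}
  | k + 1, σ, r => (Λ σ).biUnion (fun c => (Gs n q Λ k (nxt n q σ c) r).image (c :: ·)) ∪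
      if r = 0 then ∅ else
        (cells n).biUnion (fun c => (Gs n q Λ k (nxt n q σ c) (r - 1)).image (c :: ·))

theorem card_cells (n : ℕ) : (cells n).card = 4 ^ n := by
  rw [cells, Finset.card_product, Finset.card_range, ← mul_pow]; norm_num

theorem card_Gs {n q L : ℕ} {Λ : T × T → Finset (ℕ × ℕ)} (hL : 1 ≤ L)
    (hΛ : ∀ σ, (Λ σ).card ≤ L) (k : ℕ) (σ : T × T) (r : ℕ) :
    (Gs n q Λ k σ r).card ≤ (2 * L) ^ k * (4 ^ n) ^ r := by
  classical
  induction k generalizing σ r with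
  | zero =>
    have : 1 ≤ (4 ^ n) ^ r := Nat.one_le_pow _ _ (by positivity)
    simpa [Gs] using this
  | succ k ih =>
    rw [Gs]
    refine (Finset.card_union_le _ _).trans ?_
    have h1 : ((Λ σ).biUnion (fun c => (Gs n q Λ k (nxt n q σ c) r).image (c :: ·))).card ≤
        L * ((2 * L) ^ k * (4 ^ n) ^ r) := by
      refine (Finset.card_biUnion_le_card_mul _ _ ((2 * L) ^ k * (4 ^ n) ^ r)
        fun c _ => Finset.card_image_le.trans (ih _ _)).trans ?_
      exact Nat.mul_le_mul_right _ (hΛ σ)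
    have h2 : (if r = 0 then (∅ : Finset (List (ℕ × ℕ))) else
        (cells n).biUnion (fun c => (Gs n q Λ k (nxt n q σ c) (r - 1)).image (c :: ·))).card ≤
        L * ((2 * L) ^ k * (4 ^ n) ^ r) := by
      split_ifs with h
      · simp
      · refine (Finset.card_biUnion_le_card_mul _ _ ((2 * L) ^ k * (4 ^ n) ^ (r - 1))
          fun c _ => Finset.card_image_le.trans (ih _ _)).trans ?_
        obtain ⟨r, rfl⟩ := Nat.exists_eq_succ_of_ne_zero h
        rw [card_cells, Nat.succ_sub_one, pow_succ]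
        calc 4 ^ n * ((2 * L) ^ k * (4 ^ n) ^ r) = 1 * ((2 * L) ^ k * ((4 ^ n) ^ r * 4 ^ n)) := by
              ring
          _ ≤ _ := Nat.mul_le_mul_right _ hL
    calc _ ≤ L * ((2 * L) ^ k * (4 ^ n) ^ r) + L * ((2 * L) ^ k * (4 ^ n) ^ r) := add_le_add h1 h2
      _ = _ := by ring

theorem code_mem {n q : ℕ} {Λ : T × T → Finset (ℕ × ℕ)} {bad : Set Y}
    (hb : ∀ y, Ad y → y ∉ bad → cell n (sv y) ∈ Λ (st q (kap y))) (k : ℕ) (y : Y) (r : ℕ)
    (hy : Ad y) (h : cnt (fun x => x ∘ dbl n) bad k y ≤ r) :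
    code n k y ∈ Gs n q Λ k (st q (kap y)) r := by
  classical
  induction k generalizing y r with
  | zero => simp [code, Gs]
  | succ k ih =>
    rw [code, Gs, Finset.mem_union]
    rw [cnt] at h
    by_cases hyb : y ∈ bad
    · right
      simp only [hyb, if_true] at h
      rw [if_neg (by omega), Finset.mem_biUnion]
      refine ⟨_, cell_mem n y, Finset.mem_image.2 ⟨_, ?_, rfl⟩⟩
      rw [← st_dbl hy]
      exact ih _ _ (hy.dbl n) (by omega)
    · left
      simp only [hyb, if_false] at h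
      rw [Finset.mem_biUnion]
      refine ⟨_, hb y hy hyb, Finset.mem_image.2 ⟨_, ?_, rfl⟩⟩
      rw [← st_dbl hy]
      exact ih _ _ (hy.dbl n) (by omega)

theorem code_close (n k : ℕ) (y y' : Y) (hy : Ad y) (hy' : Ad y')
    (h : code n k y = code n k y') :
    |(sv y).1 - (sv y').1| ≤ (1 / 2 ^ n) ^ k ∧ |(sv y).2 - (sv y').2| ≤ (1 / 2 ^ n) ^ k := by
  induction k generalizing y y' with
  | zero =>
    simp only [sv, pow_zero, abs_le]
    have := rep_nonneg (y (1, 0)); have := rep_nonneg (y (0, 1))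
    have := rep_nonneg (y' (1, 0)); have := rep_nonneg (y' (0, 1))
    have := rep_lt (y (1, 0)); have := rep_lt (y (0, 1))
    have := rep_lt (y' (1, 0)); have := rep_lt (y' (0, 1))
    refine ⟨⟨?_, ?_⟩, ?_, ?_⟩ <;> linarith
  | succ k ih =>
    rw [code, code, List.cons.injEq] at h
    obtain ⟨h1, h2⟩ := ih _ _ (hy.dbl n) (hy'.dbl n) h.2
    rw [sv_dbl hy, sv_dbl hy', h.1] at h1 h2
    simp only [sub_sub_sub_cancel_right, ← mul_sub, abs_mul] at h1 h2
    have hp : (0 : ℝ) < 2 ^ n := by positivity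
    rw [abs_of_pos hp] at h1 h2
    rw [pow_succ, mul_one_div, le_div_iff₀ hp, le_div_iff₀ hp]
    constructor <;> linarith

theorem th_close (y y' : Y) {η : ℝ} (h : |(sv y).1 - (sv y').1| ≤ η ∧ |(sv y).2 - (sv y').2| ≤ η) :
    ‖th y - th y'‖ ≤ η := by
  rw [Prod.norm_def, max_le_iff]
  constructor
  · refine le_trans (le_of_eq ?_) ((norm_coe_le _).trans h.1)
    simp [th, sv, coe_rep]
  · refine le_trans (le_of_eq ?_) ((norm_coe_le _).trans h.2)
    simp [th, sv, coe_rep]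

theorem approx1 (ν : Measure Y) [IsFiniteMeasure ν] {E : Set Y} (hE : MeasurableSet E) {ε : ℝ≥0∞}
    (hε : 0 < ε) : ∃ Φ : Finset G, ∃ E' : Set Y, MeasurableSet E' ∧ ν (E' ∆ E) ≤ ε ∧
      ∀ κ κ' : Y, (∀ z ∈ Φ, κ z = κ' z) → κ ∈ E' → κ' ∈ E' := by
  obtain ⟨t, ht, h⟩ := exists_measure_symmDiff_lt_of_generateFrom_isSetRing (μ := ν)
    (isSetRing_measurableCylinders (α := fun _ : G => T))
    ⟨{univ}, countable_singleton _, singleton_subset_iff.2 (univ_mem_measurableCylinders _), by simp⟩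
    generateFrom_measurableCylinders.symm hE hε
  have hm := MeasurableSet.of_mem_measurableCylinders ht
  obtain ⟨s, S, -, rfl⟩ := (mem_measurableCylinders t).1 ht
  refine ⟨s, _, hm, h.le, fun κ κ' hk h1 => ?_⟩
  rw [mem_cylinder] at h1 ⊢
  have : s.restrict κ' = s.restrict κ := funext fun z => (hk z z.2).symm
  rwa [this]

theorem exists_den (Φ : Finset G) : ∃ q : ℕ, 0 < q ∧ ∀ z ∈ Φ, ∃ p p' : ℤ,
    z = ((p : ℚ) * (1 / q), (p' : ℚ) * (1 / q)) := by
  refine ⟨∏ z ∈ Φ, z.1.den * z.2.den, Finset.prod_pos fun z _ => Nat.mul_pos z.1.pos z.2.pos,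
    fun z hz => ?_⟩
  obtain ⟨w, hw⟩ := Finset.dvd_prod_of_mem (fun z : G => z.1.den * z.2.den) hz
  have hp : 0 < ∏ z ∈ Φ, z.1.den * z.2.den :=
    Finset.prod_pos fun z _ => Nat.mul_pos z.1.pos z.2.pos
  rw [hw] at hp ⊢
  have hw0 : (w : ℚ) ≠ 0 := by
    have : w ≠ 0 := by rintro rfl; simp at hp
    exact_mod_cast this
  have d1 : (z.1.den : ℚ) ≠ 0 := by exact_mod_cast z.1.den_nz
  have d2 : (z.2.den : ℚ) ≠ 0 := by exact_mod_cast z.2.den_nz
  refine ⟨z.1.num * z.2.den * w, z.2.num * z.1.den * w, ?_⟩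
  ext
  · conv_lhs => rw [← Rat.num_div_den z.1]
    push_cast; field_simp
  · conv_lhs => rw [← Rat.num_div_den z.2]
    push_cast; field_simp

theorem approx (ν : Measure Y) [IsFiniteMeasure ν] (cs : Finset (ℕ × ℕ)) (E : ℕ × ℕ → Set Y)
    (hE : ∀ c, MeasurableSet (E c)) {ε : ℝ≥0∞} (hε : 0 < ε) :
    ∃ q : ℕ, 0 < q ∧ ∃ E' : ℕ × ℕ → Set Y, (∀ c, MeasurableSet (E' c) ∧ ν (E' c ∆ E c) ≤ ε) ∧
      ∀ c ∈ cs, ∀ κ κ' : Y, Ad κ → Ad κ' → st q κ = st q κ' → κ ∈ E' c → κ' ∈ E' c := by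
  classical
  choose Φ E' h1 h2 h3 using fun c => approx1 ν (hE c) hε
  obtain ⟨q, hq, h4⟩ := exists_den (cs.biUnion Φ)
  refine ⟨q, hq, E', fun c => ⟨h1 c, h2 c⟩, fun c hc κ κ' a1 a2 a3 => h3 c _ _ fun z hz => ?_⟩
  obtain ⟨p, p', rfl⟩ := h4 z (Finset.mem_biUnion.2 ⟨c, hc, hz⟩)
  have b1 : κ (1 / q, 0) = κ' (1 / q, 0) := congrArg Prod.fst a3
  have b2 : κ (0, 1 / q) = κ' (0, 1 / q) := congrArg Prod.snd a3
  rw [a1.val', a2.val', b1, b2]

theorem few_cells (P : Measure (ℝ × ℝ)) [IsProbabilityMeasure P] (n L : ℕ) (cs : Finset (ℕ × ℕ))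
    (h : ∀ c ∈ cs, 1 ≤ L * P (cell n ⁻¹' {c})) : cs.card ≤ L := by
  have h1 : ∑ c ∈ cs, P (cell n ⁻¹' {c}) ≤ 1 := by
    rw [sum_measure_preimage_singleton cs fun c _ => meas_cell n (measurableSet_singleton c)]
    exact prob_le_one
  have h2 : (cs.card : ℝ≥0∞) ≤ L := by
    calc (cs.card : ℝ≥0∞) = ∑ _c ∈ cs, (1 : ℝ≥0∞) := by simp
      _ ≤ ∑ c ∈ cs, L * P (cell n ⁻¹' {c}) := Finset.sum_le_sum h
      _ = L * ∑ c ∈ cs, P (cell n ⁻¹' {c}) := by rw [Finset.mul_sum]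
      _ ≤ L * 1 := by gcongr
      _ = L := mul_one _
  exact_mod_cast h2

theorem meas_atom (K : Kernel Y (ℝ × ℝ)) [IsSFiniteKernel K] :
    Measurable fun x : Y => K (kap x) {sv x} := by
  have h : MeasurableSet {p : Y × (ℝ × ℝ) | p.2 = sv p.1} :=
    measurableSet_eq_fun measurable_snd (meas_sv.comp measurable_fst)
  exact Kernel.measurable_kernel_prodMk_left (κ := K.comap kap meas_kap) h

theorem exists_lam (lam : Measure Y) [IsFiniteMeasure lam] (K : Kernel Y (ℝ × ℝ))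
    [IsMarkovKernel K] (n L : ℕ) {ε : ℝ≥0∞} (hε : 0 < ε) :
    ∃ q : ℕ, 0 < q ∧ ∃ Λ : T × T → Finset (ℕ × ℕ), (∀ σ, (Λ σ).card ≤ L) ∧
      ∃ bad : Set Y, MeasurableSet bad ∧
        lam bad ≤ lam {x | L * K (kap x) {sv x} < 1} + 4 ^ n * ε ∧
        ∀ y, Ad y → y ∉ bad → cell n (sv y) ∈ Λ (st q (kap y)) := by
  classical
  set E : ℕ × ℕ → Set Y := fun c => {κ | 1 ≤ L * K κ (cell n ⁻¹' {c})} with hE
  have hEm : ∀ c, MeasurableSet (E c) := fun c =>
    measurableSet_le measurable_const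
      ((K.measurable_coe (meas_cell n (measurableSet_singleton c))).const_mul _)
  have : IsFiniteMeasure (lam.map kap) := Measure.isFiniteMeasure_map _ _
  obtain ⟨q, hq, E', h1, h2⟩ := approx (lam.map kap) (cells n) E hEm hε
  set Λ0 : T × T → Finset (ℕ × ℕ) := fun σ =>
    (cells n).filter fun c => ∃ κ, Ad κ ∧ st q κ = σ ∧ κ ∈ E' c with hΛ0
  refine ⟨q, hq, fun σ => if (Λ0 σ).card ≤ L then Λ0 σ else ∅, fun σ => ?_,
    {x | L * K (kap x) {sv x} < 1} ∪ ⋃ c ∈ cells n, kap ⁻¹' (E' c ∆ E c), ?_, ?_, ?_⟩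
  · dsimp only; split_ifs with h
    · exact h
    · simp
  · refine (measurableSet_lt ((meas_atom K).const_mul _) measurable_const).union ?_
    exact Finset.measurableSet_biUnion _ fun c _ => meas_kap ((h1 c).1.symmDiff (hEm c))
  · refine (measure_union_le _ _).trans (add_le_add le_rfl ?_)
    refine (measure_biUnion_finset_le _ _).trans ?_
    calc ∑ c ∈ cells n, lam (kap ⁻¹' (E' c ∆ E c)) ≤ ∑ _c ∈ cells n, ε := by
          refine Finset.sum_le_sum fun c _ => ?_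
          rw [← Measure.map_apply meas_kap ((h1 c).1.symmDiff (hEm c))]
          exact (h1 c).2
      _ = _ := by simp [card_cells]
  · intro y hy hb
    simp only [mem_union, mem_setOf_eq, mem_iUnion, not_or, not_lt, not_exists, mem_preimage,
      mem_symmDiff, not_and, not_not] at hb
    obtain ⟨b1, b2⟩ := hb
    have c1 : (Λ0 (st q (kap y))).card ≤ L := by
      apply few_cells (K (kap y)) n L
      intro c hc
      obtain ⟨hc1, κ, a1, a2, a3⟩ := Finset.mem_filter.1 hc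
      exact (b2 c hc1).1 (h2 c hc1 κ _ a1 hy.kap a2 a3)
    dsimp only
    rw [if_pos c1]
    refine Finset.mem_filter.2 ⟨cell_mem n y, kap y, hy.kap, rfl, (b2 _ (cell_mem n y)).2 ?_⟩
    refine b1.trans ?_
    gcongr
    intro s hs
    rw [mem_singleton_iff.1 hs]; rfl

theorem atomic_level (m : ℕ) (hm : 1 ≤ m) (lam : Measure Y) [IsFiniteMeasure lam]
    (had : ∀ᵐ x ∂lam, Ad x)
    (hinv : ∀ t : ℕ, MeasurePreserving (fun x : Y => x ∘ gu m t) lam lam)
    (hdbl : ∀ n, MeasurePreserving (fun x : Y => x ∘ dbl n) lam lam)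
    (K : Kernel Y (ℝ × ℝ)) [IsMarkovKernel K] (L : ℕ) (hL : 1 ≤ L) :
    lam {x | ¬ IsOfFinAddOrder (th x)} ≤ 600 * lam {x | L * K (kap x) {sv x} < 1} := by
  classical
  set n := 7200 * L + 1 with hn
  apply ENNReal.le_of_forall_pos_le_add
  intro δ hδ _
  have hε : (0 : ℝ≥0∞) < δ / (600 * 4 ^ n) :=
    ENNReal.div_pos (by simpa using hδ.ne') (ENNReal.mul_ne_top (by simp) (by simp))
  obtain ⟨q, hq, Λ, hΛ, bad, hbm, hb1, hb2⟩ := exists_lam lam K n L hε
  set Tq := (fin_tors q hq).toFinset with hTq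
  set Q := Tq.card with hQ
  have hQp : 0 < Q := Finset.card_pos.2 ⟨0, by simp [hTq]⟩
  set Z := (2 * L) ^ 100 * 4 ^ n with hZ
  have hZ2 : 2 ≤ Z := by
    have a1 : 1 ≤ (2 * L) ^ 100 := Nat.one_le_pow _ _ (by omega)
    have a2 : 4 ^ 1 ≤ 4 ^ n := Nat.pow_le_pow_right (by norm_num) (by omega)
    nlinarith
  set r : ℕ → ℕ := fun j => 2 ^ j * (16 * (1 + m) * Q ^ 2) with hr
  have hr0 : ∀ j, 16 * (1 + m) * Q ^ 2 ≤ r j := fun j =>
    Nat.le_mul_of_pos_left _ (by positivity)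
  have hrp : ∀ j, 1 ≤ r j := fun j => le_trans (Nat.succ_le_of_lt (by positivity)) (hr0 j)
  have hG : MeasurableSet {x | ∀ k, 100 * cnt (fun x : Y => x ∘ dbl n) bad k x ≤ k} := by
    rw [setOf_forall]
    exact MeasurableSet.iInter fun k => measurableSet_le
      ((meas_cnt (meas_comp _) hbm k).const_mul _) measurable_const
  have hmain := EF m hm lam had hinv hG (fun j => Z ^ (3 * r j)) (fun j => Q * Z ^ r j)
    (fun j => (1 / 2 ^ n) ^ (100 * r j)) ?_ ?_ ?_ ?_ ?_ ?_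
  · refine hmain.trans ?_
    have := maximal lam (hdbl n) hbm 100
    calc _ ≤ 6 * (((100 : ℕ) : ℝ≥0∞) * lam bad) := by gcongr
      _ = 600 * lam bad := by rw [← mul_assoc]; norm_num
      _ ≤ 600 * (lam {x | L * K (kap x) {sv x} < 1} + 4 ^ n * (δ / (600 * 4 ^ n))) := by gcongr
      _ = _ := by
        rw [mul_add, ← mul_assoc, ENNReal.mul_div_cancel (by simp)
          (ENNReal.mul_ne_top (by simp) (by simp))]
  · intro j
    simp only [hr]; rw [← pow_mul]; congr 1; ring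
  · intro j; positivity
  · intro j
    have a1 : r j ≤ Z ^ r j := (Nat.lt_pow_self (by omega)).le
    calc 16 * (1 + m) * (Q * Z ^ r j) ^ 2 = 16 * (1 + m) * Q ^ 2 * (Z ^ r j) ^ 2 := by ring
      _ ≤ Z ^ r j * (Z ^ r j) ^ 2 := Nat.mul_le_mul_right _ ((hr0 j).trans a1)
      _ = _ := by ring
  · intro j; positivity
  · intro j
    have a1 : 2 * Z ^ 36 ≤ (2 ^ n) ^ 100 := by
      have b1 : 2 * L ≤ 2 ^ (2 * L) := Nat.lt_two_pow_self.le
      calc 2 * Z ^ 36 ≤ 2 * ((2 ^ (2 * L)) ^ 100 * 4 ^ n) ^ 36 := by rw [hZ]; gcongr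
        _ = 2 ^ (n + 72 * n) := by
          rw [show (4 : ℕ) = 2 ^ 2 by norm_num, ← pow_mul, ← pow_mul, ← pow_add, ← pow_mul,
            ← pow_succ']
          congr 1; omega
        _ ≤ 2 ^ (n * 100) := Nat.pow_le_pow_right (by norm_num) (by omega)
        _ = _ := by rw [pow_mul]
    have a2 : (1 / 2 ^ n : ℝ) ^ 100 * (Z : ℝ) ^ 36 ≤ 1 / 2 := by
      have : (2 : ℝ) * (Z : ℝ) ^ 36 ≤ (2 ^ n) ^ 100 := by exact_mod_cast a1
      rw [one_div_pow, one_div_mul_eq_div, div_le_div_iff₀ (by positivity) (by positivity)]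
      linarith
    have a3 : (1 / 2 ^ n : ℝ) ^ (100 * r j) * ((Z ^ (3 * r j) : ℕ) : ℝ) ^ 12 =
        ((1 / 2 ^ n : ℝ) ^ 100 * (Z : ℝ) ^ 36) ^ r j := by
      push_cast
      rw [mul_pow, ← pow_mul, ← pow_mul, ← pow_mul]
      congr 2; ring
    rw [a3]
    exact (pow_le_of_le_one (by positivity) (by linarith) (by have := hrp j; omega)).trans a2
  · intro j F y hy hF
    have hc : (Tq.biUnion fun σ => Gs n q Λ (100 * r j) σ (r j)).card < F.card := by
      refine lt_of_le_of_lt ?_ hF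
      refine (Finset.card_biUnion_le_card_mul _ _ _ fun σ _ => card_Gs hL hΛ _ σ _).trans ?_
      rw [hZ, mul_pow ((2 * L) ^ 100), ← pow_mul (2 * L)]
    obtain ⟨t, ht, s, hs, hne, he⟩ := Finset.exists_ne_map_eq_of_card_lt_of_maps_to hc
      (f := fun t => code n (100 * r j) (y t)) (fun t ht => by
        refine Finset.mem_coe.2 (Finset.mem_biUnion.2 ⟨st q (kap (y t)), ?_, ?_⟩)
        · simpa [hTq] using st_tors (hy t ht).1 hq
        · apply code_mem hb2 _ _ _ (hy t ht).1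
          have := (hy t ht).2 (100 * r j)
          omega)
    exact ⟨t, ht, s, hs, hne, th_close _ _ (code_close n _ _ _ (hy t ht).1 (hy s hs).1 he)⟩

theorem atomic_tors (m : ℕ) (hm : 1 ≤ m) (lam : Measure Y) [IsFiniteMeasure lam]
    (had : ∀ᵐ x ∂lam, Ad x)
    (hinv : ∀ t : ℕ, MeasurePreserving (fun x : Y => x ∘ gu m t) lam lam)
    (hdbl : ∀ n, MeasurePreserving (fun x : Y => x ∘ dbl n) lam lam)
    (K : Kernel Y (ℝ × ℝ)) [IsMarkovKernel K] (hA : ∀ᵐ x ∂lam, 0 < K (kap x) {sv x}) :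
    lam {x | ¬ IsOfFinAddOrder (th x)} = 0 := by
  set s : ℕ → Set Y := fun L => {x | ((L + 1 : ℕ) : ℝ≥0∞) * K (kap x) {sv x} < 1} with hs
  have h1 : Tendsto (fun L => lam (s L)) atTop (𝓝 (lam (⋂ L, s L))) := by
    apply tendsto_measure_iInter_atTop
    · exact fun L =>
        (measurableSet_lt ((meas_atom K).const_mul _) measurable_const).nullMeasurableSet
    · intro a b hab x hx
      refine lt_of_le_of_lt ?_ (show ((b + 1 : ℕ) : ℝ≥0∞) * K (kap x) {sv x} < 1 from hx)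
      gcongr
    · exact ⟨0, measure_ne_top _ _⟩
  have h2 : lam (⋂ L, s L) = 0 := by
    refine measure_mono_null (fun x hx => ?_) (ae_iff.1 hA)
    intro hp
    obtain ⟨L, hL⟩ := ENNReal.exists_nat_mul_gt hp.ne' ENNReal.one_ne_top
    have := mem_iInter.1 hx L
    refine lt_asymm this (lt_of_lt_of_le hL ?_)
    gcongr; omega
  rw [h2] at h1
  have h3 := ENNReal.Tendsto.const_mul (a := 600) h1 (Or.inr (by simp))
  rw [mul_zero] at h3
  exact le_antisymm (ge_of_tendsto' h3 fun L =>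
    atomic_level m hm lam had hinv hdbl K (L + 1) (by omega)) (zero_le)

end Pool.Agent.H.MP_fc94d9_co
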