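import Mathlib
import Pool.Agent.H.MP_fc94d9_co.E
open MeasureTheory Set Filter Topology ProbabilityTheory
open scoped ENNReal
namespace Pool.Agent.H.MP_fc94d9_co

noncomputable def psi (x : Y) : Y × (ℝ × ℝ) := (kap x, sv x)

theorem meas_psi : Measurable psi := meas_kap.prodMk meas_sv

theorem kap_add (x : Y) : kap x + ell (sv x) = x := by simp [kap]

noncomputable def rho (ν : Measure Y) : Measure (Y × (ℝ × ℝ)) := ν.map psi

instance (ν : Measure Y) [IsFiniteMeasure ν] : IsFiniteMeasure (rho ν) :=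
  Measure.isFiniteMeasure_map _ _

noncomputable def ker (ν : Measure Y) [IsFiniteMeasure ν] : Kernel Y (ℝ × ℝ) := (rho ν).condKernel

instance (ν : Measure Y) [IsFiniteMeasure ν] : IsMarkovKernel (ker ν) := by
  unfold ker; infer_instance

theorem disint (ν : Measure Y) [IsFiniteMeasure ν] : (rho ν).fst ⊗ₘ ker ν = rho ν := by
  unfold ker; exact Measure.disintegrate _ _

def LC (B : Set Y) : Prop := ∀ x : Y, {e : ℝ × ℝ | x + ell e ∈ B}.Countable

def At (ν : Measure Y) [IsFiniteMeasure ν] : Set Y := {x | 0 < ker ν (kap x) {sv x}}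

theorem meas_At (ν : Measure Y) [IsFiniteMeasure ν] : MeasurableSet (At ν) :=
  measurableSet_lt measurable_const (meas_atom _)

theorem lc_null (ν : Measure Y) [IsFiniteMeasure ν] {B : Set Y} (hB : MeasurableSet B)
    (h : LC B) : ν (B \ At ν) = 0 := by
  set C : Set (Y × (ℝ × ℝ)) := {p | p.1 + ell p.2 ∈ B ∧ ker ν p.1 {p.2} = 0} with hC
  have h1 : Measurable fun p : Y × (ℝ × ℝ) => ker ν p.1 {p.2} := by
    have h : MeasurableSet {q : (Y × (ℝ × ℝ)) × (ℝ × ℝ) | q.2 = q.1.2} :=
      measurableSet_eq_fun measurable_snd (measurable_snd.comp measurable_fst)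
    exact Kernel.measurable_kernel_prodMk_left (κ := (ker ν).comap Prod.fst measurable_fst) h
  have hCm : MeasurableSet C :=
    ((measurable_fst.add (cont_ell.measurable.comp measurable_snd)) hB).inter
      (h1 (measurableSet_singleton 0))
  have h2 : B \ At ν = psi ⁻¹' C := by
    ext x; simp [hC, psi, kap_add, At]
  rw [h2, ← Measure.map_apply meas_psi hCm]
  change rho ν C = 0
  rw [← disint ν, Measure.compProd_apply hCm]
  refine (lintegral_congr fun κ => ?_).trans lintegral_zero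
  have h3 : (Prod.mk κ ⁻¹' C).Countable := (h κ).mono fun e he => he.1
  rw [← biUnion_of_singleton (Prod.mk κ ⁻¹' C), measure_biUnion_null_iff h3]
  exact fun e he => he.2

theorem ell_add (a b : ℝ × ℝ) : ell (a + b) = ell a + ell b := by
  funext z
  simp only [ell, Pi.add_apply, ← AddCircle.coe_add]
  congr 1
  simp; ring

theorem ell_sub (a b : ℝ × ℝ) : ell (a - b) = ell a - ell b := by
  rw [eq_sub_iff_add_eq, ← ell_add, sub_add_cancel]

theorem lc_At (ν : Measure Y) [IsFiniteMeasure ν] : LC (At ν) := by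
  intro x
  have h1 : ∀ d : ℤ × ℤ, ((fun s : ℝ × ℝ => (((d.1 : ℝ), (d.2 : ℝ)) : ℝ × ℝ) + s - sv x) ''
      {s | 0 < ker ν (kap x + ell (d.1, d.2)) {a | id a = s}}).Countable :=
    fun d => (Measure.countable_meas_level_set_pos measurable_id).image _
  refine (countable_iUnion h1).mono fun e he => ?_
  set s := sv (x + ell e) with hs
  have h2 : kap (x + ell e) = kap x + ell (e - s + sv x) := by
    rw [ell_add, ell_sub, kap, kap, ← hs]; abel
  have h3 := th_kap (x + ell e)
  have h4 := th_kap x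
  have a1 : kap (x + ell e) (1, 0) = 0 := congrArg Prod.fst h3
  have a2 : kap (x + ell e) (0, 1) = 0 := congrArg Prod.snd h3
  have b1 : kap x (1, 0) = 0 := congrArg Prod.fst h4
  have b2 : kap x (0, 1) = 0 := congrArg Prod.snd h4
  rw [h2, Pi.add_apply, b1, zero_add, ell, AddCircle.coe_eq_zero_iff] at a1
  rw [h2, Pi.add_apply, b2, zero_add, ell, AddCircle.coe_eq_zero_iff] at a2
  obtain ⟨d1, hd1⟩ := a1
  obtain ⟨d2, hd2⟩ := a2
  have h5 : e - s + sv x = ((d1 : ℝ), (d2 : ℝ)) := by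
    ext
    · simpa using hd1.symm
    · simpa using hd2.symm
  refine mem_iUnion.2 ⟨(d1, d2), s, ?_, ?_⟩
  · have : 0 < ker ν (kap (x + ell e)) {s} := he
    rw [h2, h5] at this
    exact this
  · dsimp only; rw [← h5]; abel

theorem ell_mat (e : ℝ × ℝ) (a b c d : ℚ) :
    ell e ∘ mat a b c d = ell (a * e.1 + c * e.2, b * e.1 + d * e.2) := by
  funext z
  simp only [ell, mat, Function.comp]
  congr 1
  push_cast; ring

theorem LC.mat {B : Set Y} (h : LC B) {a b c d : ℚ} (hd : a * d - b * c ≠ 0) :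
    LC ((fun x : Y => x ∘ mat a b c d) ⁻¹' B) := by
  intro x
  have h1 : Function.Injective fun e : ℝ × ℝ =>
      (((a : ℝ) * e.1 + c * e.2, (b : ℝ) * e.1 + d * e.2) : ℝ × ℝ) := by
    intro e e' he
    have a1 : (a : ℝ) * e.1 + c * e.2 = a * e'.1 + c * e'.2 := congrArg Prod.fst he
    have a2 : (b : ℝ) * e.1 + d * e.2 = b * e'.1 + d * e'.2 := congrArg Prod.snd he
    have hd' : (a : ℝ) * d - b * c ≠ 0 := by exact_mod_cast hd
    ext
    · apply mul_left_cancel₀ hd'; linear_combination d * a1 - c * a2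
    · apply mul_left_cancel₀ hd'; linear_combination a * a2 - b * a1
  refine ((h (x ∘ Pool.Agent.H.MP_fc94d9_co.mat a b c d)).preimage_of_injOn h1.injOn).mono
    fun e he => ?_
  simp only [mem_preimage, mem_setOf_eq] at he ⊢
  rw [← ell_mat]
  exact he

theorem inv_At (ν : Measure Y) [IsFiniteMeasure ν] {a b c d : ℚ} (hd : a * d - b * c ≠ 0)
    (h : MeasurePreserving (fun x : Y => x ∘ mat a b c d) ν ν) :
    MeasurePreserving (fun x : Y => x ∘ mat a b c d) (ν.restrict (At ν)) (ν.restrict (At ν)) := by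
  have h1 := lc_null ν (h.measurable (meas_At ν)) ((lc_At ν).mat hd)
  have h2 : (fun x : Y => x ∘ mat a b c d) ⁻¹' At ν =ᵐ[ν] At ν :=
    ae_eq_of_ae_subset_of_measure_ge (ae_le_set.2 h1)
      (h.measure_preimage (meas_At ν).nullMeasurableSet).ge
      (h.measurable (meas_At ν)).nullMeasurableSet (measure_ne_top _ _)
  have h3 := h.restrict_preimage (meas_At ν)
  rwa [Measure.restrict_congr_set h2] at h3

def Tor : Set Y := {x | ∀ z, IsOfFinAddOrder (x z)}

theorem count_fin : {u : T | IsOfFinAddOrder u}.Countable := by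
  have : {u : T | IsOfFinAddOrder u} ⊆ ⋃ n : ℕ, Prod.fst '' {τ : T × T | (n + 1) • τ = 0} := by
    intro u hu
    obtain ⟨n, hn, h⟩ := isOfFinAddOrder_iff_nsmul_eq_zero.1 hu
    obtain ⟨n, rfl⟩ := Nat.exists_eq_succ_of_ne_zero hn.ne'
    exact mem_iUnion.2 ⟨n, (u, 0), by ext <;> simp [h], rfl⟩
  exact (countable_iUnion fun n => ((fin_tors (n + 1) n.succ_pos).image _).countable).mono this

theorem meas_Tor : MeasurableSet Tor := by
  rw [Tor, setOf_forall]
  refine MeasurableSet.iInter fun z => ?_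
  have : Measurable fun x : Y => x z := measurable_pi_apply z
  exact this count_fin.measurableSet

theorem surj_mat {a b c d : ℚ} (hd : a * d - b * c ≠ 0) : Function.Surjective (mat a b c d) := by
  intro z
  refine ⟨((d * z.1 - b * z.2) / (a * d - b * c), (a * z.2 - c * z.1) / (a * d - b * c)), ?_⟩
  have h := mul_inv_cancel₀ hd
  ext
  · simp only [mat, div_eq_mul_inv]; linear_combination z.1 * h
  · simp only [mat, div_eq_mul_inv]; linear_combination z.2 * h

theorem inv_Tor (μ : Measure Y) {a b c d : ℚ} (hd : a * d - b * c ≠ 0)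
    (h : MeasurePreserving (fun x : Y => x ∘ mat a b c d) μ μ) :
    MeasurePreserving (fun x : Y => x ∘ mat a b c d) (μ.restrict Torᶜ) (μ.restrict Torᶜ) := by
  have h2 : (fun x : Y => x ∘ mat a b c d) ⁻¹' Torᶜ = Torᶜ := by
    ext x
    simp only [mem_preimage, mem_compl_iff, Tor, mem_setOf_eq, Function.comp]
    rw [(surj_mat hd).forall (p := fun z => IsOfFinAddOrder (x z))]
  have h3 := h.restrict_preimage meas_Tor.compl
  rwa [h2] at h3

theorem Ad.tor {x : Y} (h : Ad x) (h1 : IsOfFinAddOrder (th x)) : x ∈ Tor := by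
  intro z
  obtain ⟨n, hn, h2⟩ := isOfFinAddOrder_iff_nsmul_eq_zero.1 h1
  obtain ⟨q, hq, h3⟩ := exists_den {z}
  obtain ⟨p, p', h4⟩ := h3 z (Finset.mem_singleton_self z)
  refine isOfFinAddOrder_iff_nsmul_eq_zero.2 ⟨n * q, by positivity, ?_⟩
  have hq' : (q : ℚ) ≠ 0 := by positivity
  have : q • z = ((p : ℚ), (p' : ℚ)) := by
    rw [h4]; ext <;> simp <;> field_simp
  rw [mul_nsmul', ← h.nsmul, this]
  exact h.kill h2 _ _

theorem det_gu (m : ℕ) (t : ℚ) : al m t * al m t - -(m * be m t) * be m t ≠ 0 := by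
  have h : (0 : ℚ) < 1 + m * t ^ 2 := by positivity
  have : al m t * al m t - -(m * be m t) * be m t = 1 := by
    simp only [al, be]; field_simp; ring
  rw [this]; exact one_ne_zero

theorem det_dbl (n : ℕ) : (2 : ℚ) ^ n * 2 ^ n - 0 * 0 ≠ 0 := by
  simp

theorem nonatomic (m : ℕ) (hm : 1 ≤ m) (μ : Measure Y) [IsFiniteMeasure μ]
    (had : ∀ᵐ x ∂μ, Ad x)
    (hinv : ∀ t : ℕ, MeasurePreserving (fun x : Y => x ∘ gu m t) μ μ)
    (hdbl : ∀ n, MeasurePreserving (fun x : Y => x ∘ dbl n) μ μ) :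
    μ.restrict Torᶜ (At (μ.restrict Torᶜ)) = 0 := by
  set ν := μ.restrict Torᶜ with hν
  have had1 : ∀ᵐ x ∂ν, Ad x := ae_restrict_of_ae had
  have had2 : ∀ᵐ x ∂(ν.restrict (At ν)), Ad x := ae_restrict_of_ae had1
  have h1 := atomic_tors m hm (ν.restrict (At ν)) had2
    (fun t => inv_At ν (det_gu m t) (inv_Tor μ (det_gu m t) (hinv t)))
    (fun n => inv_At ν (det_dbl n) (inv_Tor μ (det_dbl n) (hdbl n))) (ker ν)
    (ae_restrict_mem (meas_At ν))
  have h2 : ∀ᵐ x ∂(ν.restrict (At ν)), x ∈ Torᶜ :=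
    ae_restrict_of_ae (ae_restrict_mem meas_Tor.compl)
  have h3 : ∀ᵐ x ∂(ν.restrict (At ν)), False := by
    filter_upwards [had2, h2, ae_iff.2 h1] with x a1 a2 a3
    exact a2 (a1.tor a3)
  rw [ae_iff] at h3
  simpa using h3

end Pool.Agent.H.MP_fc94d9_co
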