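import Mathlib
import Pool.Agent.H.MP_fc94d9_co.F
open MeasureTheory Set Filter Topology ProbabilityTheory Real
open scoped ENNReal ComplexConjugate FourierTransform
namespace Pool.Agent.H.MP_fc94d9_co

noncomputable def ec (u : T) : ℂ := (AddCircle.toCircle u : ℂ)

theorem ec_add (u v : T) : ec (u + v) = ec u * ec v := by simp [ec, AddCircle.toCircle_add]
theorem norm_ec (u : T) : ‖ec u‖ = 1 := Circle.norm_coe _
theorem ec_zero : ec 0 = 1 := by simp [ec]
theorem ec_neg (u : T) : ec (-u) = conj (ec u) := by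
  rw [ec, AddCircle.toCircle_neg, Circle.coe_inv_eq_conj]; rfl
theorem cont_ec : Continuous ec := continuous_subtype_val.comp AddCircle.continuous_toCircle

noncomputable def er (r : ℝ) : ℂ := ec (r : T)

theorem er_eq (r : ℝ) : er r = (𝐞 r : ℂ) := by
  rw [er, ec, AddCircle.toCircle_apply_mk, Real.fourierChar_apply', div_one]
theorem norm_er (r : ℝ) : ‖er r‖ = 1 := norm_ec _
@[fun_prop] theorem cont_er : Continuous er := cont_ec.comp (AddCircle.continuous_mk' 1)
theorem er_sub (a b : ℝ) : er (a - b) = er a * conj (er b) := by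
  rw [er, AddCircle.coe_sub, sub_eq_add_neg, ec_add, ec_neg]; rfl

theorem osc0 : Tendsto (fun a : ℝ => ∫ θ in (0 : ℝ)..π, er (-(cos θ * a))) (cocompact ℝ) (𝓝 0) := by
  have hm : MeasurableSet (cos '' Ioo 0 π) :=
    (isPreconnected_Ioo.image _ continuous_cos.continuousOn).ordConnected.measurableSet
  have h := Real.tendsto_integral_exp_smul_cocompact
    ((cos '' Ioo 0 π).indicator fun v => (((√(1 - v ^ 2))⁻¹ : ℝ) : ℂ))
  refine h.congr fun a => ?_
  have h1 : ∀ v, 𝐞 (-(v * a)) • (cos '' Ioo 0 π).indicator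
      (fun v => (((√(1 - v ^ 2))⁻¹ : ℝ) : ℂ)) v = (cos '' Ioo 0 π).indicator
      (fun v => er (-(v * a)) * (((√(1 - v ^ 2))⁻¹ : ℝ) : ℂ)) v := by
    intro v
    by_cases hv : v ∈ cos '' Ioo 0 π
    · rw [indicator_of_mem hv, indicator_of_mem hv, er_eq]; rfl
    · rw [indicator_of_notMem hv, indicator_of_notMem hv, smul_zero]
  simp only [h1]
  rw [integral_indicator hm, integral_image_eq_integral_abs_deriv_smul measurableSet_Ioo
    (fun x _ => (hasDerivAt_cos x).hasDerivWithinAt) (injOn_cos.mono Ioo_subset_Icc_self),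
    intervalIntegral.integral_of_le pi_pos.le, integral_Ioc_eq_integral_Ioo]
  refine setIntegral_congr_fun measurableSet_Ioo fun θ hθ => ?_
  have hs : 0 < sin θ := sin_pos_of_pos_of_lt_pi hθ.1 hθ.2
  have h2 : √(1 - cos θ ^ 2) = sin θ := by
    rw [← sin_sq, sqrt_sq hs.le]
  have h3 : (sin θ : ℂ) ≠ 0 := by exact_mod_cast hs.ne'
  rw [h2, abs_neg, abs_of_pos hs, Complex.real_smul, Complex.ofReal_inv]
  field_simp

theorem osc (w : ℝ × ℝ) (hw : w ≠ 0) :
    Tendsto (fun n : ℕ => ∫ θ in (-π)..π, er (2 ^ n * (w.1 * cos θ + w.2 * sin θ))) atTop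
      (𝓝 0) := by
  set z : ℂ := ⟨w.1, w.2⟩ with hz
  have hz0 : z ≠ 0 := by
    intro h
    exact hw (Prod.ext (congrArg Complex.re h) (congrArg Complex.im h))
  have h1 : ‖z‖ * cos z.arg = w.1 := Complex.norm_mul_cos_arg z
  have h2 : ‖z‖ * sin z.arg = w.2 := Complex.norm_mul_sin_arg z
  have h3 : Tendsto (fun n : ℕ => -(2 ^ n * ‖z‖)) atTop (cocompact ℝ) := by
    rw [← Metric.cobounded_eq_cocompact, ← tendsto_norm_atTop_iff_cobounded]
    simp only [norm_neg, norm_mul, norm_pow, norm_norm, Real.norm_two]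
    exact (tendsto_pow_atTop_atTop_of_one_lt one_lt_two).atTop_mul_const (norm_pos_iff.2 hz0)
  have h4 := (osc0.comp h3).const_mul 2
  rw [mul_zero] at h4
  refine h4.congr fun n => ?_
  set g : ℝ → ℂ := fun θ => er (-(cos θ * -(2 ^ n * ‖z‖))) with hg
  have hp : Function.Periodic g (2 * π) := fun θ => by simp only [hg, cos_add_two_pi]
  have hc : Continuous g := by rw [hg]; fun_prop
  have e1 : ∀ θ, er (2 ^ n * (w.1 * cos θ + w.2 * sin θ)) = g (θ - z.arg) := fun θ => by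
    simp only [hg]; congr 1; rw [cos_sub, ← h1, ← h2]; ring
  simp only [e1]
  rw [intervalIntegral.integral_comp_sub_right g]
  have e2 := hp.intervalIntegral_add_eq (-π - z.arg) (-π)
  rw [show -π - z.arg + 2 * π = π - z.arg by ring, show -π + 2 * π = π by ring] at e2
  rw [e2, ← intervalIntegral.integral_add_adjacent_intervals (b := 0)
    (hc.intervalIntegrable _ _) (hc.intervalIntegrable _ _)]
  have e3 := intervalIntegral.integral_comp_neg (a := 0) (b := π) g
  have e4 : ∀ θ, g (-θ) = g θ := fun θ => by simp only [hg, cos_neg]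
  simp only [e4, neg_zero] at e3
  rw [← e3, two_mul]; rfl

def dt (ξ s : ℝ × ℝ) : ℝ := s.1 * ξ.1 + s.2 * ξ.2

noncomputable def gk (ν : Measure Y) [IsFiniteMeasure ν] (ξ : ℝ × ℝ) (κ : Y) : ℂ :=
  ∫ s, er (dt ξ s) ∂(ker ν κ)

noncomputable def sig (ν : Measure Y) [IsFiniteMeasure ν] : Measure (Y × (ℝ × ℝ)) :=
  ν ⊗ₘ (ker ν).comap kap meas_kap

instance (ν : Measure Y) [IsFiniteMeasure ν] : IsFiniteMeasure (sig ν) := by
  unfold sig; infer_instance

noncomputable def Phi (ν : Measure Y) [IsFiniteMeasure ν] (ξ : ℝ × ℝ) : ℂ :=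
  ∫ p, er (dt ξ (sv p.1 - p.2)) ∂(sig ν)

theorem cont_dt : Continuous fun p : (ℝ × ℝ) × (ℝ × ℝ) => er (dt p.1 p.2) := by
  unfold dt; fun_prop

theorem meas_dt (ξ : ℝ × ℝ) : Measurable fun s => er (dt ξ s) :=
  (cont_dt.comp (Continuous.prodMk_right ξ)).measurable

theorem meas_gk (ν : Measure Y) [IsFiniteMeasure ν] (ξ : ℝ × ℝ) : Measurable (gk ν ξ) :=
  ((meas_dt ξ).stronglyMeasurable.integral_kernel (κ := ker ν)).measurable

theorem norm_gk (ν : Measure Y) [IsFiniteMeasure ν] (ξ : ℝ × ℝ) (κ : Y) : ‖gk ν ξ κ‖ ≤ 1 := by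
  have := norm_integral_le_of_norm_le_const (μ := ker ν κ) (f := fun s => er (dt ξ s)) (C := 1)
    (Eventually.of_forall fun s => (norm_er _).le)
  simpa [gk] using this

theorem int_psi (ν : Measure Y) [IsFiniteMeasure ν] {F : Y × (ℝ × ℝ) → ℂ} (hF : Measurable F)
    (hb : ∀ p, ‖F p‖ ≤ 1) :
    ∫ x, F (psi x) ∂ν = ∫ κ, ∫ s, F (κ, s) ∂(ker ν κ) ∂(rho ν).fst := by
  rw [← Measure.integral_compProd
    (Integrable.of_bound hF.aestronglyMeasurable 1 (Eventually.of_forall hb)), disint, rho,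
    integral_map meas_psi.aemeasurable hF.aestronglyMeasurable]

theorem meas_w : Measurable fun p : Y × (ℝ × ℝ) => sv p.1 - p.2 :=
  (meas_sv.comp measurable_fst).sub measurable_snd

theorem Phi_eq (ν : Measure Y) [IsFiniteMeasure ν] (ξ : ℝ × ℝ) :
    Phi ν ξ = ((∫ κ, ‖gk ν ξ κ‖ ^ 2 ∂(rho ν).fst : ℝ) : ℂ) := by
  have h1 : Measurable fun p : Y × (ℝ × ℝ) => er (dt ξ (sv p.1 - p.2)) := (meas_dt ξ).comp meas_w
  rw [Phi, sig, Measure.integral_compProd
    (Integrable.of_bound h1.aestronglyMeasurable 1 (Eventually.of_forall fun p => (norm_er _).le))]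
  have h2 : ∀ x : Y, ∫ s, er (dt ξ (sv x - s)) ∂((ker ν).comap kap meas_kap x) =
      (fun p : Y × (ℝ × ℝ) => er (dt ξ p.2) * conj (gk ν ξ p.1)) (psi x) := by
    intro x
    have : ∀ s, er (dt ξ (sv x - s)) = er (dt ξ (sv x)) * conj (er (dt ξ s)) := fun s => by
      rw [← er_sub]; congr 1; simp [dt]; ring
    simp only [this]
    rw [integral_const_mul, integral_conj]; rfl
  simp only [h2]
  rw [int_psi ν (F := fun p : Y × (ℝ × ℝ) => er (dt ξ p.2) * conj (gk ν ξ p.1))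
    (((meas_dt ξ).comp measurable_snd).mul
      (Complex.continuous_conj.measurable.comp ((meas_gk ν ξ).comp measurable_fst)))
    (fun p => by rw [norm_mul, norm_er, one_mul, Complex.norm_conj]; exact norm_gk _ _ _),
    ← integral_complex_ofReal]
  refine integral_congr_ae (Eventually.of_forall fun κ => ?_)
  dsimp only
  rw [integral_mul_const]
  change gk ν ξ κ * conj (gk ν ξ κ) = _
  rw [Complex.mul_conj, Complex.normSq_eq_norm_sq]

theorem c_le (ν : Measure Y) [IsFiniteMeasure ν] (z : G) :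
    ‖∫ x, ec (x z) ∂ν‖ ≤ ∫ κ, ‖gk ν (z.1, z.2) κ‖ ∂(rho ν).fst := by
  have h1 : ∀ x : Y, ec (x z) =
      (fun p : Y × (ℝ × ℝ) => ec (p.1 z) * er (dt (z.1, z.2) p.2)) (psi x) := by
    intro x
    conv_lhs => rw [← kap_add x]
    rw [Pi.add_apply, ec_add]; rfl
  have h2 : Measurable fun x : Y => x z := measurable_pi_apply z
  rw [integral_congr_ae (Eventually.of_forall h1)]
  rw [int_psi ν (F := fun p : Y × (ℝ × ℝ) => ec (p.1 z) * er (dt (z.1, z.2) p.2))
    ((cont_ec.measurable.comp (h2.comp measurable_fst)).mul ((meas_dt _).comp measurable_snd))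
    (fun p => by rw [norm_mul, norm_er, norm_ec, one_mul])]
  refine (norm_integral_le_integral_norm _).trans (le_of_eq ?_)
  refine integral_congr_ae (Eventually.of_forall fun κ => ?_)
  dsimp only
  rw [integral_const_mul, norm_mul, norm_ec, one_mul]; rfl

theorem c_le2 (ν : Measure Y) [IsFiniteMeasure ν] (z : G) (a : ℝ) (ha : 0 ≤ a) :
    2 * a * ‖∫ x, ec (x z) ∂ν‖ ≤ a ^ 2 * (rho ν).fst.real univ + (Phi ν (z.1, z.2)).re := by
  have hm := (meas_gk ν (z.1, z.2)).norm
  have i1 : Integrable (fun κ => ‖gk ν (z.1, z.2) κ‖) (rho ν).fst :=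
    Integrable.of_bound hm.aestronglyMeasurable 1
      (Eventually.of_forall fun κ => by rw [norm_norm]; exact norm_gk _ _ _)
  have i2 : Integrable (fun κ => ‖gk ν (z.1, z.2) κ‖ ^ 2) (rho ν).fst :=
    Integrable.of_bound (hm.pow_const 2).aestronglyMeasurable 1
      (Eventually.of_forall fun κ => by
        rw [norm_pow, norm_norm]; exact pow_le_one₀ (norm_nonneg _) (norm_gk _ _ _))
  rw [Phi_eq, Complex.ofReal_re]
  calc _ ≤ 2 * a * ∫ κ, ‖gk ν (z.1, z.2) κ‖ ∂(rho ν).fst := by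
        have := c_le ν z
        gcongr
    _ = ∫ κ, 2 * a * ‖gk ν (z.1, z.2) κ‖ ∂(rho ν).fst := (integral_const_mul _ _).symm
    _ ≤ ∫ κ, (a ^ 2 + ‖gk ν (z.1, z.2) κ‖ ^ 2) ∂(rho ν).fst :=
        integral_mono (i1.const_mul _) ((integrable_const _).add i2)
          fun κ => by dsimp only; nlinarith [sq_nonneg (a - ‖gk ν (z.1, z.2) κ‖)]
    _ = _ := by rw [integral_add (integrable_const _) i2, integral_const, smul_eq_mul, mul_comm]

theorem cont_Phi (ν : Measure Y) [IsFiniteMeasure ν] : Continuous (Phi ν) :=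
  continuous_of_dominated (bound := fun _ => 1)
    (fun ξ => ((meas_dt ξ).comp meas_w).aestronglyMeasurable)
    (fun _ => Eventually.of_forall fun _ => (norm_er _).le) (integrable_const _)
    (Eventually.of_forall fun _ => cont_dt.comp (Continuous.prodMk_left _))

theorem avg_Phi (ν : Measure Y) [IsFiniteMeasure ν] (hA : ν (At ν) = 0) (a b : ℝ) (ha : a ≠ 0)
    (hb : b ≠ 0) : Tendsto (fun n : ℕ => ∫ θ in (-π)..π,
      Phi ν (2 ^ n * (a * cos θ), 2 ^ n * (b * sin θ))) atTop (𝓝 0) := by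
  have hm : ∀ n : ℕ, Measurable (Function.uncurry fun (θ : ℝ) (p : Y × (ℝ × ℝ)) =>
      er (dt (2 ^ n * (a * cos θ), 2 ^ n * (b * sin θ)) (sv p.1 - p.2))) := by
    intro n
    have h1 : Measurable fun θ : ℝ => ((2 ^ n * (a * cos θ), 2 ^ n * (b * sin θ)) : ℝ × ℝ) := by
      fun_prop
    have h2 : Measurable fun q : ℝ × (Y × (ℝ × ℝ)) =>
        (((2 ^ n * (a * cos q.1), 2 ^ n * (b * sin q.1)), sv q.2.1 - q.2.2) : (ℝ × ℝ) × (ℝ × ℝ)) :=
      (h1.comp measurable_fst).prodMk (meas_w.comp measurable_snd)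
    have h3 := cont_dt.measurable.comp h2
    exact h3
  have h1 : ∀ n : ℕ, ∫ θ in (-π)..π, Phi ν (2 ^ n * (a * cos θ), 2 ^ n * (b * sin θ)) =
      ∫ p, (∫ θ in (-π)..π, er (dt (2 ^ n * (a * cos θ), 2 ^ n * (b * sin θ)) (sv p.1 - p.2)))
        ∂(sig ν) := by
    intro n
    have : IsFiniteMeasure (volume.restrict (uIoc (-π) π)) :=
      isFiniteMeasure_restrict.2 (by rw [uIoc]; exact measure_Ioc_lt_top.ne)
    exact intervalIntegral_integral_swap (Integrable.of_bound (hm n).aestronglyMeasurable 1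
      (Eventually.of_forall fun _ => (norm_er _).le))
  simp only [h1]
  have h2 : ∀ᵐ p ∂(sig ν), sv p.1 - p.2 ≠ 0 := by
    have hw : MeasurableSet {p : Y × (ℝ × ℝ) | sv p.1 - p.2 ≠ 0} :=
      meas_w (measurableSet_singleton 0).compl
    rw [sig, Measure.ae_compProd_iff hw]
    filter_upwards [measure_eq_zero_iff_ae_notMem.1 hA] with x hx
    rw [ae_iff]
    have : {s | ¬ (sv x - s ≠ 0)} = {sv x} := by
      ext s; simp only [ne_eq, not_not, mem_setOf_eq, mem_singleton_iff, sub_eq_zero]; exact eq_comm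
    rw [this]
    simpa [At] using hx
  have h3 := tendsto_integral_of_dominated_convergence (μ := sig ν) (f := fun _ => (0 : ℂ))
    (F := fun n p => ∫ θ in (-π)..π,
      er (dt (2 ^ n * (a * cos θ), 2 ^ n * (b * sin θ)) (sv p.1 - p.2)))
    (fun _ => 1 * |π - -π|) ?_ (integrable_const _) ?_ ?_
  · simpa using h3
  · intro n
    simp only [intervalIntegral.integral_of_le (neg_le_self pi_pos.le)]
    exact ((hm n).stronglyMeasurable.integral_prod_left).aestronglyMeasurable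
  · exact fun n => Eventually.of_forall fun p =>
      intervalIntegral.norm_integral_le_of_norm_le_const fun _ _ => (norm_er _).le
  · filter_upwards [h2] with p hp
    have h4 := osc ((sv p.1 - p.2).1 * a, (sv p.1 - p.2).2 * b) (by
      intro h
      apply hp
      have b1 : (sv p.1 - p.2).1 * a = 0 := congrArg Prod.fst h
      have b2 : (sv p.1 - p.2).2 * b = 0 := congrArg Prod.snd h
      exact Prod.ext ((mul_eq_zero.1 b1).resolve_right ha) ((mul_eq_zero.1 b2).resolve_right hb))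
    refine h4.congr fun n => intervalIntegral.integral_congr fun θ _ => ?_
    dsimp only [dt]
    congr 1; ring

theorem mp_int {α β : Type} [MeasurableSpace α] [MeasurableSpace β] {μ : Measure α} {ν : Measure β}
    {f : α → β} (h : MeasurePreserving f μ ν) {g : β → ℂ} (hg : Measurable g) :
    ∫ x, g (f x) ∂μ = ∫ x, g x ∂ν := by
  rw [← h.map_eq, integral_map h.measurable.aemeasurable hg.aestronglyMeasurable]

theorem four_zero (m : ℕ) (hm : 1 ≤ m) (ν : Measure Y) [IsFiniteMeasure ν]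
    (hinv : ∀ t : ℚ, MeasurePreserving (fun x : Y => x ∘ gu m t) ν ν)
    (hdbl : ∀ n, MeasurePreserving (fun x : Y => x ∘ dbl n) ν ν)
    (hA : ν (At ν) = 0) (j : ℚ) (hj : j ≠ 0) : ∫ x, ec (x (j, 0)) ∂ν = 0 := by
  by_contra hc
  set c := ‖∫ x, ec (x (j, 0)) ∂ν‖ with hcd
  have c0 : 0 < c := norm_pos_iff.2 hc
  set M := (rho ν).fst.real univ with hM
  have M0 : 0 ≤ M := measureReal_nonneg
  set a := c / (M + 1) with ha
  have a0 : 0 < a := by positivity
  have a1 : a * (M + 1) = c := by rw [ha]; field_simp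
  have hme : ∀ z : G, Measurable fun x : Y => ec (x z) := fun z =>
    cont_ec.measurable.comp (measurable_pi_apply z)
  have h1 : ∀ (n : ℕ) (t : ℚ), a * c ≤
      (Phi ν (2 ^ n * (j * ((1 - m * (t : ℝ) ^ 2) / (1 + m * (t : ℝ) ^ 2))),
        2 ^ n * (j * (2 * (t : ℝ) / (1 + m * (t : ℝ) ^ 2))))).re := by
    intro n t
    have b1 := c_le2 ν (gu m t (dbl n (j, 0))) a a0.le
    have b2 : ∫ x, ec (x (gu m t (dbl n (j, 0)))) ∂ν = ∫ x, ec (x (j, 0)) ∂ν := by
      exact (mp_int (hinv t) (hme (dbl n (j, 0)))).trans (mp_int (hdbl n) (hme (j, 0)))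
    have b3 : (((gu m t (dbl n (j, 0))).1, (gu m t (dbl n (j, 0))).2) : ℝ × ℝ) =
        (2 ^ n * (j * ((1 - m * (t : ℝ) ^ 2) / (1 + m * (t : ℝ) ^ 2))),
        2 ^ n * (j * (2 * (t : ℝ) / (1 + m * (t : ℝ) ^ 2)))) := by
      ext <;> simp [gu, mat, dbl, al, be] <;> ring
    rw [b2, b3, ← hcd, ← hM] at b1
    nlinarith
  have h2 : ∀ (n : ℕ) (t : ℝ), a * c ≤
      (Phi ν (2 ^ n * (j * ((1 - m * t ^ 2) / (1 + m * t ^ 2))),
        2 ^ n * (j * (2 * t / (1 + m * t ^ 2))))).re := by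
    intro n t
    refine Rat.denseRange_cast.induction_on t (isClosed_le continuous_const ?_) (h1 n)
    refine Complex.continuous_re.comp ((cont_Phi ν).comp ?_)
    have : ∀ t : ℝ, 1 + m * t ^ 2 ≠ 0 := fun t => by positivity
    fun_prop (disch := exact this _)
  have m0 : (0 : ℝ) < m := by exact_mod_cast hm
  have s0 : 0 < √(m : ℝ) := sqrt_pos.2 m0
  have h3 : ∀ (n : ℕ), ∀ θ ∈ Ioo (-π) π, a * c ≤
      (Phi ν (2 ^ n * (j * cos θ), 2 ^ n * (j / √(m : ℝ) * sin θ))).re := by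
    intro n θ hθ
    have b0 : cos θ ≠ -1 := by
      have : 0 < cos (θ / 2) := cos_pos_of_mem_Ioo ⟨by linarith [hθ.1], by linarith [hθ.2]⟩
      have b := cos_sq (θ / 2)
      rw [show 2 * (θ / 2) = θ by ring] at b
      intro h; rw [h] at b; nlinarith
    have b1 := h2 n (tan (θ / 2) / √(m : ℝ))
    have b2 : m * (tan (θ / 2) / √(m : ℝ)) ^ 2 = tan (θ / 2) ^ 2 := by
      rw [div_pow, sq_sqrt m0.le]; field_simp
    rw [b2, ← cos_eq_two_mul_tan_half_div_one_sub_tan_half_sq θ b0] at b1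
    rw [sin_eq_two_mul_tan_half_div_one_add_tan_half_sq]
    have b3 : (j : ℝ) / √(m : ℝ) * (2 * tan (θ / 2) / (1 + tan (θ / 2) ^ 2)) =
        j * (2 * (tan (θ / 2) / √(m : ℝ)) / (1 + tan (θ / 2) ^ 2)) := by ring
    rw [b3]; exact b1
  have j0 : (j : ℝ) ≠ 0 := by exact_mod_cast hj
  have h4 := (Complex.continuous_re.tendsto _).comp
    (avg_Phi ν hA j (j / √(m : ℝ)) j0 (div_ne_zero j0 s0.ne'))
  have h5 : (π - -π) * (a * c) ≤ 0 := by
    refine ge_of_tendsto' h4 fun n => ?_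
    have hc : Continuous fun θ : ℝ =>
        Phi ν (2 ^ n * (j * cos θ), 2 ^ n * (j / √(m : ℝ) * sin θ)) :=
      (cont_Phi ν).comp (by fun_prop)
    have b1 := intervalIntegral.intervalIntegral_re (hc.intervalIntegrable (μ := volume) (-π) π)
    have b2 := intervalIntegral.integral_mono_on_of_le_Ioo (μ := volume) (neg_le_self pi_pos.le)
      (intervalIntegrable_const (c := a * c))
      ((Complex.continuous_re.comp hc).intervalIntegrable (-π) π) (h3 n)
    rw [intervalIntegral.integral_const, smul_eq_mul] at b2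
    exact b2.trans (le_of_eq b1)
  have : 0 < (π - -π) * (a * c) := mul_pos (by linarith [pi_pos]) (mul_pos a0 c0)
  linarith

theorem tor_four (m : ℕ) (hm : 1 ≤ m) (μ : Measure Y) [IsFiniteMeasure μ]
    (had : ∀ᵐ x ∂μ, Ad x)
    (hinv : ∀ t : ℚ, MeasurePreserving (fun x : Y => x ∘ gu m t) μ μ)
    (hdbl : ∀ n, MeasurePreserving (fun x : Y => x ∘ dbl n) μ μ) (j : ℚ) (hj : j ≠ 0) :
    ∫ x in Torᶜ, ec (x (j, 0)) ∂μ = 0 :=
  four_zero m hm (μ.restrict Torᶜ) (fun t => inv_Tor μ (det_gu m t) (hinv t))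
    (fun n => inv_Tor μ (det_dbl n) (hdbl n))
    (nonatomic m hm μ had (fun t => hinv t) hdbl) j hj

end Pool.Agent.H.MP_fc94d9_co
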