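import Mathlib
import Pool.Agent.H.MP_fc94d9_co.G
open MeasureTheory Set Filter Topology ProbabilityTheory
open scoped ENNReal ComplexConjugate Nat
namespace Pool.Agent.H.MP_fc94d9_co

theorem ec_nsmul (n : ℕ) (u : T) : ec (n • u) = ec u ^ n := by
  simp [ec, AddCircle.toCircle_nsmul]

theorem ec_eq_one {u : T} (h : ec u = 1) : u = 0 := by
  apply AddCircle.injective_toCircle one_ne_zero
  rw [AddCircle.toCircle_zero]
  exact Subtype.ext h

theorem noatom {α : Type} [MeasurableSpace α] (ν : Measure α) [IsFiniteMeasure ν] (f : α → T)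
    (hf : Measurable f) (h : ∀ j : ℕ, ∫ x, ec ((j + 1) • f x) ∂ν = 0) (a : T) :
    ν {x | f x = a} = 0 := by
  have hm : ∀ j : ℕ, Measurable fun x => ec ((j + 1) • (f x - a)) := fun j =>
    cont_ec.measurable.comp ((hf.sub_const a).const_smul (j + 1))
  have hs : MeasurableSet {x | f x = a} := hf (measurableSet_singleton a)
  have h1 := tendsto_integral_of_dominated_convergence (μ := ν)
    (F := fun N x => (N : ℂ)⁻¹ * ∑ j ∈ Finset.range N, ec ((j + 1) • (f x - a)))
    (f := {x | f x = a}.indicator 1) (fun _ => 1) ?_ (integrable_const _) ?_ ?_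
  · have h2 : ∀ N : ℕ, ∫ x, (N : ℂ)⁻¹ * ∑ j ∈ Finset.range N, ec ((j + 1) • (f x - a)) ∂ν = 0 := by
      intro N
      rw [integral_const_mul, integral_finsetSum _ fun j _ => Integrable.of_bound
        (hm j).aestronglyMeasurable 1 (Eventually.of_forall fun x => (norm_ec _).le),
        Finset.sum_eq_zero, mul_zero]
      intro j _
      simp only [smul_sub, sub_eq_add_neg, smul_add, ec_add]
      rw [integral_mul_const, h, zero_mul]
    simp only [h2] at h1
    have h3 := tendsto_nhds_unique h1 tendsto_const_nhds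
    rw [integral_indicator hs] at h3
    simpa [measureReal_eq_zero_iff] using h3
  · exact fun N => ((Finset.measurable_sum _ fun j _ => hm j).const_mul _).aestronglyMeasurable
  · refine fun N => Eventually.of_forall fun x => ?_
    rw [norm_mul, norm_inv, Complex.norm_natCast]
    have := norm_sum_le (Finset.range N) fun j => ec ((j + 1) • (f x - a))
    simp only [norm_ec, Finset.sum_const, Finset.card_range, nsmul_eq_mul, mul_one] at this
    calc _ ≤ (N : ℝ)⁻¹ * N := by gcongr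
      _ ≤ 1 := inv_mul_le_one
  · refine Eventually.of_forall fun x => ?_
    by_cases hx : f x = a
    · rw [indicator_of_mem (show x ∈ {x | f x = a} from hx)]
      refine tendsto_const_nhds.congr' ?_
      filter_upwards [eventually_gt_atTop 0] with N hN
      have : (N : ℂ) ≠ 0 := by exact_mod_cast hN.ne'
      simp [hx, ec_zero, this]
    · rw [indicator_of_notMem (show x ∉ {x | f x = a} from hx)]
      have h1 : ec (f x - a) ≠ 1 := fun h => hx (sub_eq_zero.1 (ec_eq_one h))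
      refine squeeze_zero_norm (a := fun N : ℕ => (N : ℝ)⁻¹ * (2 / ‖ec (f x - a) - 1‖)) (fun N => ?_) ?_
      · simp only [ec_nsmul, pow_succ, ← Finset.sum_mul]
        rw [geom_sum_eq h1, norm_mul, norm_mul, norm_inv, Complex.norm_natCast, norm_ec, mul_one,
          norm_div]
        gcongr
        refine (norm_sub_le _ _).trans ?_
        rw [norm_pow, norm_ec]; norm_num
      · simpa using tendsto_inv_atTop_nhds_zero_nat.mul_const (2 / ‖ec (f x - a) - 1‖)

variable {Γ : Type} [Field Γ] [CharZero Γ]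

def ph (w : Γ) (z : G) : Γ := z.1 + z.2 * w

theorem meas_ph (w : Γ) : Measurable fun x : Γ → T => x ∘ ph w :=
  measurable_pi_lambda _ fun z => measurable_pi_apply (ph w z)

theorem Ad.ph {x : Γ → T} (h : Ad x) (w : Γ) : Ad (x ∘ ph w) := by
  intro a b
  simp only [Function.comp, ← h _ _]
  congr 1
  simp [Pool.Agent.H.MP_fc94d9_co.ph]; ring

def SInv (ι : Γ →+* ℂ) (μ : Measure (Γ → T)) : Prop :=
  ∀ h : Γ, (∃ n : ℕ, ‖ι h‖ = 2 ^ n) → MeasurePreserving (fun (x : Γ → T) z => x (h * z)) μ μ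

theorem norm_ph (ι : Γ →+* ℂ) {w : Γ} {m : ℕ} (hw : ι w = Complex.I * (√(m : ℝ) : ℝ)) (z : G)
    (hz : z.1 ^ 2 + m * z.2 ^ 2 = 1) : ‖ι (ph w z)‖ = 2 ^ 0 := by
  have h1 : ι (ph w z) = ((z.1 : ℝ) : ℂ) + ((z.2 * √(m : ℝ) : ℝ) : ℂ) * Complex.I := by
    simp [ph, hw]; ring
  have h2 : (z.1 : ℝ) ^ 2 + m * (z.2 : ℝ) ^ 2 = 1 := by exact_mod_cast hz
  rw [h1, Complex.norm_add_mul_I, mul_pow, Real.sq_sqrt (by positivity), mul_comm, h2]
  simp

theorem sq_w (ι : Γ →+* ℂ) {w : Γ} {m : ℕ} (hw : ι w = Complex.I * (√(m : ℝ) : ℝ)) :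
    w ^ 2 = -m := by
  apply ι.injective
  have : ((√(m : ℝ) : ℝ) : ℂ) ^ 2 = m := by
    rw [← Complex.ofReal_pow, Real.sq_sqrt (by positivity)]; simp
  rw [map_pow, hw, mul_pow, this]; simp

theorem push_inv {μ : Measure (Γ → T)} {w h : Γ} {g : G → G}
    (hμ : MeasurePreserving (fun (x : Γ → T) z => x (h * z)) μ μ)
    (hg : ∀ z, ph w (g z) = h * ph w z) :
    MeasurePreserving (fun x : Y => x ∘ g) (μ.map fun x => x ∘ ph w) (μ.map fun x => x ∘ ph w) := by
  refine ⟨meas_comp g, ?_⟩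
  rw [Measure.map_map (meas_comp g) (meas_ph w)]
  conv_rhs => rw [← hμ.map_eq, Measure.map_map (meas_ph w) hμ.measurable]
  congr 1
  funext x z
  simp [hg]

theorem push_four (ι : Γ →+* ℂ) {w : Γ} {m : ℕ} (hm : 1 ≤ m)
    (hw : ι w = Complex.I * (√(m : ℝ) : ℝ)) (μ : Measure (Γ → T)) [IsFiniteMeasure μ]
    (had : ∀ᵐ x ∂μ, Ad x) (hinv : SInv ι μ) (j : ℚ) (hj : j ≠ 0) :
    ∫ x in (fun x : Γ → T => x ∘ ph w) ⁻¹' Torᶜ, ec (x j) ∂μ = 0 := by
  have hAd : MeasurableSet {y : Y | Ad y} := by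
    simp only [Ad, setOf_forall]
    exact MeasurableSet.iInter fun a => MeasurableSet.iInter fun b =>
      measurableSet_eq_fun (measurable_pi_apply _)
        ((measurable_pi_apply a).add (measurable_pi_apply b))
  have hw2 := sq_w ι hw
  have h1 := tor_four m hm (μ.map fun x => x ∘ ph w)
    ((ae_map_iff (meas_ph w).aemeasurable hAd).2 (had.mono fun x hx => hx.ph w))
    (fun t => push_inv (hinv (ph w (al m t, be m t)) ⟨0, norm_ph ι hw _ (by
      have h : (0 : ℚ) < 1 + m * t ^ 2 := by positivity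
      simp only [al, be]; field_simp; ring)⟩) (fun z => by
        simp only [ph, gu, mat]; push_cast
        linear_combination (-(be m t : Γ) * z.2) * hw2))
    (fun n => push_inv (hinv (2 ^ n) ⟨n, by simp [map_ofNat]⟩) (fun z => by
        simp only [ph, dbl, mat]; push_cast; ring)) j hj
  have h2 : Measurable fun x : Y => ec (x (j, 0)) :=
    cont_ec.measurable.comp (measurable_pi_apply _)
  rw [setIntegral_map meas_Tor.compl h2.aestronglyMeasurable (meas_ph w).aemeasurable] at h1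
  simpa [ph] using h1

theorem push_null (ι : Γ →+* ℂ) {w : Γ} {m : ℕ} (hm : 1 ≤ m)
    (hw : ι w = Complex.I * (√(m : ℝ) : ℝ)) (μ : Measure (Γ → T)) [IsFiniteMeasure μ]
    (had : ∀ᵐ x ∂μ, Ad x) (hinv : SInv ι μ) :
    ∀ᵐ x ∂μ, IsOfFinAddOrder (x 1) → x ∘ ph w ∈ Tor := by
  have hs : MeasurableSet ((fun x : Γ → T => x ∘ ph w) ⁻¹' Torᶜ) := meas_ph w meas_Tor.compl
  have h1 := noatom (μ.restrict ((fun x : Γ → T => x ∘ ph w) ⁻¹' Torᶜ)) (fun x => x 1)
    (measurable_pi_apply 1) (fun j => by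
      rw [← push_four ι hm hw μ had hinv (j + 1) (by positivity)]
      refine integral_congr_ae ((ae_restrict_of_ae had).mono fun x hx => ?_)
      dsimp only
      rw [← hx.nsmul]; simp)
  have h2 : (μ.restrict ((fun x : Γ → T => x ∘ ph w) ⁻¹' Torᶜ))
      {x | IsOfFinAddOrder (x 1)} = 0 := by
    have : {x : Γ → T | IsOfFinAddOrder (x 1)} = ⋃ a ∈ {u : T | IsOfFinAddOrder u}, {x | x 1 = a} := by
      ext x; simp
    rw [this, measure_biUnion_null_iff count_fin]
    exact fun a _ => h1 a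
  rw [Measure.restrict_apply' hs] at h2
  filter_upwards [measure_eq_zero_iff_ae_notMem.1 h2] with x hx h3
  by_contra h4
  exact hx ⟨h3, h4⟩

theorem tors_zero (ι : Γ →+* ℂ) (w : ℕ → Γ) (hw : ∀ m, ι (w m) = Complex.I * (√(m : ℝ) : ℝ))
    (μ : Measure (Γ → T)) [IsFiniteMeasure μ] (had : ∀ᵐ x ∂μ, Ad x) (hinv : SInv ι μ) :
    μ {x | IsOfFinAddOrder (x 1) ∧ x 1 ≠ 0} = 0 := by
  set W : ℕ → Set (Γ → T) := fun B => (fun x => x 1) ⁻¹' {u | IsOfFinAddOrder u ∧ B ! • u ≠ 0}
    with hW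
  have hWm : ∀ B, MeasurableSet (W B) := fun B =>
    measurable_pi_apply (1 : Γ) (count_fin.mono fun u hu => hu.1).measurableSet
  have h1 : Tendsto (fun B => μ (W B)) atTop (𝓝 (μ (⋂ B, W B))) := by
    apply tendsto_measure_iInter_atTop (fun B => (hWm B).nullMeasurableSet)
    · refine antitone_nat_of_succ_le fun B x hx => ⟨hx.1, fun h => hx.2 ?_⟩
      rw [Nat.factorial_succ, mul_nsmul', h, smul_zero]
    · exact ⟨0, measure_ne_top _ _⟩
  have h2 : ⋂ B, W B = ∅ := by
    refine eq_empty_of_forall_notMem fun x hx => ?_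
    obtain ⟨n, hn, h⟩ := isOfFinAddOrder_iff_nsmul_eq_zero.1 (mem_iInter.1 hx 0).1
    apply (mem_iInter.1 hx n).2
    obtain ⟨c, hc⟩ := Nat.dvd_factorial hn le_rfl
    show n ! • x 1 = 0
    rw [hc, mul_nsmul, h, smul_zero]
  rw [h2, measure_empty] at h1
  have h3 := h1.add h1
  rw [add_zero] at h3
  refine le_antisymm (ge_of_tendsto' h3 fun B => ?_) zero_le
  set N := B ! with hN
  have N1 : 1 ≤ N := B.factorial_pos
  have N0 : (N : ℚ) ≠ 0 := by positivity
  have N0' : (N : Γ) ≠ 0 := by exact_mod_cast B.factorial_ne_zero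
  obtain ⟨m, hm⟩ : ∃ m, m + 1 = 4 * N ^ 2 := ⟨4 * N ^ 2 - 1, Nat.sub_add_cancel (by nlinarith)⟩
  have m1 : 1 ≤ m := by nlinarith
  have hm' : (m : ℚ) = 4 * N ^ 2 - 1 := by
    rw [eq_sub_iff_add_eq]; exact_mod_cast hm
  have a1 := hinv _ ⟨0, norm_ph ι (hw m) (1 / (2 * N), 1 / (2 * N)) (by
    rw [hm']; field_simp; ring)⟩
  have a2 := hinv _ ⟨0, norm_ph ι (hw m) (1 / (2 * N), -(1 / (2 * N))) (by
    rw [hm']; field_simp; ring)⟩
  rw [← a1.measure_preimage (hWm B).nullMeasurableSet]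
  nth_rewrite 2 [a1.measure_preimage (hWm B).nullMeasurableSet]
  nth_rewrite 1 [← a2.measure_preimage (hWm B).nullMeasurableSet]
  refine le_trans (measure_mono_ae ?_) (measure_union_le _ _)
  filter_upwards [had, push_null ι m1 (hw m) μ had hinv] with x b1 b2 b3
  have c1 := b2 b3.1 (1 / (2 * N), 1 / (2 * N))
  have c2 := b2 b3.1 (1 / (2 * N), -(1 / (2 * N)))
  refine (mem_union x _ _).2 ?_
  by_contra hc
  simp only [hW, mem_preimage, mem_setOf_eq, mul_one, not_or, not_and, not_not] at hc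
  apply b3.2
  have : (1 : Γ) = N • (ph (w m) (1 / (2 * N), 1 / (2 * N)) +
      ph (w m) (1 / (2 * N), -(1 / (2 * N)))) := by
    simp only [ph, nsmul_eq_mul]; push_cast; field_simp; ring
  rw [this, b1.nsmul, b1, smul_add, hc.1 c1, hc.2 c2, add_zero]

theorem step3 (ι : Γ →+* ℂ) (w : ℕ → Γ) (hw : ∀ m, ι (w m) = Complex.I * (√(m : ℝ) : ℝ))
    (μ : Measure (Γ → T)) [IsFiniteMeasure μ] (had : ∀ᵐ x ∂μ, Ad x) (hinv : SInv ι μ) :
    μ.real {0} ≤ ∫ x, (ec (x 1)).re ∂μ := by
  have hs : MeasurableSet ((fun x : Γ → T => x ∘ ph (w 1)) ⁻¹' Tor) := meas_ph _ meas_Tor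
  have h0 : Measurable fun x : Γ → T => x 1 := measurable_pi_apply 1
  have hi : Integrable (fun x : Γ → T => ec (x 1)) μ := Integrable.of_bound
    (cont_ec.measurable.comp h0).aestronglyMeasurable 1
    (Eventually.of_forall fun x => (norm_ec _).le)
  have h1 := push_four ι le_rfl (hw 1) μ had hinv 1 one_ne_zero
  rw [Rat.cast_one, preimage_compl] at h1
  have h2 : ∫ x in (fun x : Γ → T => x ∘ ph (w 1)) ⁻¹' Tor, ec (x 1) ∂μ =
      ∫ x in (fun x : Γ → T => x ∘ ph (w 1)) ⁻¹' Tor, (1 : ℂ) ∂μ := by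
    refine setIntegral_congr_ae hs ?_
    filter_upwards [measure_eq_zero_iff_ae_notMem.1 (tors_zero ι w hw μ had hinv)] with x hx h3
    have h4 : IsOfFinAddOrder (x 1) := by simpa [ph] using h3 (1, 0)
    have h5 : x 1 = 0 := by
      by_contra h
      exact hx ⟨h4, h⟩
    rw [h5, ec_zero]
  have h3 := integral_add_compl hs hi
  rw [h1, h2, add_zero, setIntegral_const] at h3
  have h4 : ∫ x, (ec (x 1)).re ∂μ = (∫ x, ec (x 1) ∂μ).re := integral_re hi
  rw [h4, ← h3]
  simp only [Complex.real_smul, mul_one, Complex.ofReal_re]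
  refine measureReal_mono ?_
  rintro _ rfl z
  exact IsOfFinAddOrder.zero

end Pool.Agent.H.MP_fc94d9_co
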