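import Mathlib
import Pool.Agent.H.MP_fc94d9_co.H
open MeasureTheory Set Filter Topology ProbabilityTheory
open scoped ENNReal ComplexConjugate
namespace Pool.Agent.H.MP_fc94d9_co

section fin
variable {I : Type} [Fintype I] [DecidableEq I] {M : ℕ} [NeZero M]

noncomputable def chi (a g : I → ZMod M) : ℂ := ec (∑ s, ZMod.toAddCircle (a s * g s))

theorem ec_sum {ι : Type} (s : Finset ι) (f : ι → T) : ec (∑ i ∈ s, f i) = ∏ i ∈ s, ec (f i) := by
  classical
  induction s using Finset.induction_on with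
  | empty => simp [ec_zero]
  | insert i s hi ih => rw [Finset.sum_insert hi, Finset.prod_insert hi, ec_add, ih]

omit [DecidableEq I] in
theorem chi_add (a g g' : I → ZMod M) : chi a (g + g') = chi a g * chi a g' := by
  simp only [chi, Pi.add_apply, mul_add, map_add, Finset.sum_add_distrib, ec_add]

omit [DecidableEq I] in
theorem chi_neg (a g : I → ZMod M) : chi a (-g) = conj (chi a g) := by
  simp only [chi, Pi.neg_apply, mul_neg, map_neg, Finset.sum_neg_distrib, ec_neg]

omit [DecidableEq I] in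
theorem chi_zero (g : I → ZMod M) : chi 0 g = 1 := by simp [chi, ec_zero]

omit [DecidableEq I] in
theorem chi_zero' (a : I → ZMod M) : chi a 0 = 1 := by simp [chi, ec_zero]

theorem sum_chi (g : I → ZMod M) :
    ∑ a, chi a g = if g = 0 then (M : ℂ) ^ Fintype.card I else 0 := by
  have h1 : ∀ a : I → ZMod M, chi a g = ∏ s, ZMod.stdAddChar (a s * g s) := fun a => by
    rw [chi, ec_sum]; rfl
  simp only [h1]
  rw [← Fintype.piFinset_univ, ← Finset.prod_univ_sum (fun _ => Finset.univ)
    (fun s (b : ZMod M) => ZMod.stdAddChar (b * g s))]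
  simp only [AddChar.sum_mulShift _ (ZMod.isPrimitive_stdAddChar M), ZMod.card]
  split_ifs with h
  · simp [h]
  · obtain ⟨s, hs⟩ := Function.ne_iff.1 h
    exact Finset.prod_eq_zero (Finset.mem_univ s) (by rw [if_neg (show ¬ g s = 0 from hs)]; simp)

theorem parseval (A : Finset (I → ZMod M)) (v : I → ZMod M) :
    ∑ a, ((‖∑ g ∈ A, chi a g‖ ^ 2 : ℝ) : ℂ) * chi a v =
      (M : ℂ) ^ Fintype.card I * (A.filter fun g => g + v ∈ A).card := by
  have h1 : ∀ a, ((‖∑ g ∈ A, chi a g‖ ^ 2 : ℝ) : ℂ) * chi a v =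
      ∑ g ∈ A, ∑ g' ∈ A, chi a (g + v - g') := by
    intro a
    rw [← Complex.normSq_eq_norm_sq, ← Complex.mul_conj, map_sum, Finset.sum_mul_sum,
      Finset.sum_mul]
    refine Finset.sum_congr rfl fun g _ => ?_
    rw [Finset.sum_mul]
    refine Finset.sum_congr rfl fun g' _ => ?_
    rw [sub_eq_add_neg, chi_add, chi_add, chi_neg]; ring
  simp only [h1]
  rw [Finset.sum_comm, Finset.card_filter, Nat.cast_sum, Finset.mul_sum]
  refine Finset.sum_congr rfl fun g _ => ?_
  rw [Finset.sum_comm]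
  simp only [sum_chi, sub_eq_zero]
  rw [Finset.sum_ite_eq]
  split_ifs <;> simp

def bd (I : Type) [Fintype I] [DecidableEq I] (M : ℕ) [NeZero M] : Finset (I → ZMod M) :=
  Finset.univ.filter fun g => ∃ s, ¬ (2 ≤ (g s).val ∧ (g s).val + 2 < M)

theorem card_bd : (bd I M).card * M ≤ 4 * Fintype.card I * M ^ Fintype.card I := by
  set E : Finset (ZMod M) := Finset.univ.filter fun a => ¬ (2 ≤ a.val ∧ a.val + 2 < M) with hE
  have h1 : E.card ≤ 4 := by
    refine le_trans (Finset.card_le_card_of_injOn (t := {0, 1, M - 2, M - 1}) ZMod.val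
      (fun a ha => ?_) (ZMod.val_injective M).injOn) Finset.card_le_four
    have := ZMod.val_lt a
    simp only [hE, Finset.coe_filter, Finset.mem_univ, true_and, mem_setOf_eq] at ha
    simp only [Finset.coe_insert, Finset.coe_singleton, mem_insert_iff, mem_singleton_iff]
    omega
  have h2 : bd I M ⊆ Finset.univ.biUnion fun s => E.biUnion fun e =>
      (Fintype.piFinset fun _ : I => (Finset.univ : Finset (ZMod M))).filter fun g => g s = e := by
    intro g hg
    obtain ⟨s, hs⟩ := (Finset.mem_filter.1 hg).2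
    simp only [Finset.mem_biUnion, Finset.mem_univ, true_and, Finset.mem_filter,
      Fintype.mem_piFinset, implies_true]
    exact ⟨s, g s, by simpa [hE] using hs, rfl⟩
  have h3 : (bd I M).card ≤ Fintype.card I * (4 * M ^ (Fintype.card I - 1)) := by
    refine (Finset.card_le_card h2).trans (Finset.card_biUnion_le_card_mul _ _ _ fun s _ => ?_)
    refine (Finset.card_biUnion_le_card_mul _ _ (M ^ (Fintype.card I - 1)) fun e _ => ?_).trans
      (Nat.mul_le_mul_right _ h1)
    rw [Fintype.card_filter_piFinset_const_eq_of_mem _ _ (Finset.mem_univ e), Finset.card_univ,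
      ZMod.card]
  rcases Nat.eq_zero_or_pos (Fintype.card I) with h | h
  · rw [h] at h3; simp at h3; simp [h3]
  · obtain ⟨d, hd⟩ := Nat.exists_eq_succ_of_ne_zero h.ne'
    rw [hd] at h3 ⊢
    calc _ ≤ (d + 1) * (4 * M ^ d) * M := Nat.mul_le_mul_right _ h3
      _ = _ := by rw [pow_succ]; simp only [Nat.succ_eq_add_one]; ring

theorem val_shift {g : I → ZMod M} (hg : g ∉ bd I M) (v : I → ℤ) (hv : ∀ s, |v s| ≤ 2) (s : I) :
    (((g + fun s => (v s : ZMod M)) s).val : ℤ) = (g s).val + v s := by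
  have h1 : 2 ≤ (g s).val ∧ (g s).val + 2 < M := by
    by_contra h
    exact hg (Finset.mem_filter.2 ⟨Finset.mem_univ _, s, h⟩)
  have h2 : (g + fun s => (v s : ZMod M)) s = (((g s).val + v s : ℤ) : ZMod M) := by simp
  have h3 := abs_le.1 (hv s)
  rw [h2, ZMod.val_intCast, Int.emod_eq_of_lt (by omega) (by omega)]

end fin

theorem disc_meas {X J : Type} [MeasurableSpace X] [Fintype J] (p : J → ℝ) (hp : ∀ j, 0 ≤ p j)
    (h1 : ∑ j, p j = 1) (y : J → X) : ∃ μ : ProbabilityMeasure X,
      (∀ f : X → ℝ, Measurable f → ∫ x, f x ∂μ = ∑ j, p j * f (y j)) ∧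
      ∀ j, ENNReal.ofReal (p j) ≤ (μ : Measure X) {y j} := by
  refine ⟨⟨∑ j, ENNReal.ofReal (p j) • Measure.dirac (y j), ⟨?_⟩⟩, fun f hf => ?_, fun j => ?_⟩
  · simp only [Measure.coe_finsetSum, Finset.sum_apply, Measure.smul_apply, measure_univ,
      smul_eq_mul, mul_one]
    rw [← ENNReal.ofReal_sum_of_nonneg fun j _ => hp j, h1, ENNReal.ofReal_one]
  · simp only [ProbabilityMeasure.coe_mk]
    rw [integral_finsetSum_measure fun j _ =>
      (integrable_dirac' hf.stronglyMeasurable (by simp)).smul_measure ENNReal.ofReal_ne_top]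
    refine Finset.sum_congr rfl fun j _ => ?_
    rw [integral_smul_measure, integral_dirac' _ _ hf.stronglyMeasurable,
      ENNReal.toReal_ofReal (hp j), smul_eq_mul]
  · simp only [ProbabilityMeasure.coe_mk, Measure.coe_finsetSum, Finset.sum_apply,
      Measure.smul_apply, smul_eq_mul]
    refine le_trans ?_ (Finset.single_le_sum (f := fun i =>
      ENNReal.ofReal (p i) * Measure.dirac (y i) {y j}) (fun _ _ => zero_le) (Finset.mem_univ j))
    rw [Measure.dirac_apply_of_mem (mem_singleton _), mul_one]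

theorem fin_step {Γ : Type} [AddCommGroup Γ] {k : ℕ} (col : Γ → Fin k) (Φ : Finset Γ) {ε : ℝ}
    (hε : 0 < ε) : ∃ μ : ProbabilityMeasure (Γ → T), (k : ℝ≥0∞)⁻¹ ≤ (μ : Measure (Γ → T)) {0} ∧
      ∀ v : Φ → ℤ, (∀ s, |v s| ≤ 2) →
        ((∀ a, col (a + ∑ s, v s • (s : Γ)) ≠ col a) →
          ∫ x : Γ → T, (ec (∑ s : Φ, v s • x s)).re ∂μ ≤ ε) ∧
        (∑ s, v s • (s : Γ) = 0 → 1 - ε ≤ ∫ x : Γ → T, (ec (∑ s : Φ, v s • x s)).re ∂μ) := by
  classical
  obtain ⟨M, hM⟩ := exists_nat_gt (4 * Fintype.card Φ * k / ε)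
  have hM0 : (0 : ℝ) < M := lt_of_le_of_lt (by positivity) hM
  have : NeZero M := ⟨by rintro rfl; simp at hM0⟩
  set β : (Φ → ZMod M) → Γ := fun g => ∑ s, ((g s).val : ℤ) • (s : Γ) with hβ
  have hβ1 : ∀ g ∉ bd Φ M, ∀ v : Φ → ℤ, (∀ s, |v s| ≤ 2) →
      β (g + fun s => (v s : ZMod M)) = β g + ∑ s, v s • (s : Γ) := by
    intro g hg v hv
    simp only [hβ, val_shift hg v hv, add_smul, Finset.sum_add_distrib]
  obtain ⟨c, -, hc⟩ := Finset.exists_max_image (Finset.univ : Finset (Fin k))
    (fun c => (Finset.univ.filter fun g : Φ → ZMod M => col (β g) = c).card)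
    ⟨col 0, Finset.mem_univ _⟩
  set A := Finset.univ.filter fun g : Φ → ZMod M => col (β g) = c with hA
  set n := M ^ Fintype.card Φ with hn
  have hn1 : n ≤ A.card * k := by
    have := Finset.card_le_mul_card_image (f := fun g : Φ → ZMod M => col (β g)) Finset.univ A.card
      fun c _ => hc c (Finset.mem_univ _)
    rw [Finset.card_univ, Fintype.card_fun, ZMod.card] at this
    refine this.trans (Nat.mul_le_mul_left _ ((Finset.card_le_univ _).trans ?_))
    rw [Fintype.card_fin]
  have n0 : 0 < n := Nat.pos_of_ne_zero (pow_ne_zero _ (NeZero.ne M))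
  have A0 : 0 < A.card := Nat.pos_of_ne_zero (by rintro h; rw [h] at hn1; omega)
  have k0 : 0 < k := Nat.pos_of_ne_zero (by rintro h; rw [h] at hn1; omega)
  have n0' : (0 : ℝ) < n := by exact_mod_cast n0
  have A0' : (0 : ℝ) < A.card := by exact_mod_cast A0
  have k0' : (0 : ℝ) < k := by exact_mod_cast k0
  have hn1' : (n : ℝ) ≤ A.card * k := by exact_mod_cast hn1
  have hbd : ((bd Φ M).card : ℝ) ≤ ε * A.card := by
    have b1 : ((bd Φ M).card : ℝ) * M ≤ 4 * Fintype.card Φ * n := by
      exact_mod_cast card_bd (I := Φ) (M := M)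
    rw [div_lt_iff₀ hε] at hM
    have b2 : (4 * Fintype.card Φ * n : ℝ) ≤ 4 * Fintype.card Φ * (A.card * k) := by gcongr
    have b3 : (4 * Fintype.card Φ * k : ℝ) * A.card ≤ M * ε * A.card := by gcongr
    apply le_of_mul_le_mul_right _ hM0
    nlinarith
  set p : (Φ → ZMod M) → ℝ := fun a => ‖∑ g ∈ A, chi a g‖ ^ 2 / (n * A.card) with hp
  have hpar : ∀ v : Φ → ZMod M, ∑ a, p a * (chi a v).re =
      (A.filter fun g => g + v ∈ A).card / A.card := by
    intro v
    have b1 := congrArg Complex.re (parseval A v)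
    rw [Complex.re_sum, ← Nat.cast_pow, ← hn, ← Nat.cast_mul, Complex.natCast_re] at b1
    simp only [Complex.re_ofReal_mul] at b1
    simp only [hp, div_mul_eq_mul_div]
    rw [← Finset.sum_div, b1]
    push_cast; field_simp
  obtain ⟨μ, h1, h2⟩ := disc_meas p (fun a => by positivity) (by
    have := hpar 0
    simp only [chi_zero', Complex.one_re, mul_one, add_zero] at this
    rw [this, Finset.filter_true_of_mem fun _ h => h, div_self A0'.ne'])
    (fun a (z : Γ) => if h : z ∈ Φ then ZMod.toAddCircle (a ⟨z, h⟩) else (0 : T))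
  refine ⟨μ, ?_, fun v hv => ?_⟩
  · have b1 := h2 0
    have b2 : (fun z : Γ => if h : z ∈ Φ then ZMod.toAddCircle ((0 : Φ → ZMod M) ⟨z, h⟩)
        else (0 : T)) = 0 := by
      funext z; simp
    rw [b2] at b1
    refine le_trans ?_ b1
    rw [← ENNReal.ofReal_natCast, ← ENNReal.ofReal_inv_of_pos k0']
    apply ENNReal.ofReal_le_ofReal
    simp only [hp, chi_zero, Finset.sum_const, nsmul_eq_mul, mul_one, Complex.norm_natCast]
    rw [le_div_iff₀ (by positivity), inv_mul_le_iff₀ k0']
    nlinarith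
  · have b0 : Measurable fun x : Γ → T => ∑ s : Φ, v s • x s :=
      Finset.measurable_sum _ fun s _ =>
        (continuous_zsmul (v s)).measurable.comp (measurable_pi_apply (s : Γ))
    have b0' : Measurable fun x : Γ → T => (ec (∑ s : Φ, v s • x s)).re :=
      Complex.measurable_re.comp (cont_ec.measurable.comp b0)
    rw [h1 _ b0']
    have b1 : ∀ a : Φ → ZMod M, ec (∑ s : Φ, v s • (if h : (s : Γ) ∈ Φ then
        ZMod.toAddCircle (a ⟨s, h⟩) else (0 : T))) = chi a fun s => (v s : ZMod M) := by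
      intro a
      rw [chi]
      congr 1
      refine Finset.sum_congr rfl fun s _ => ?_
      rw [dif_pos s.2, ← map_zsmul, zsmul_eq_mul, mul_comm]
    simp only [b1]
    rw [hpar]
    constructor
    · intro h
      rw [div_le_iff₀ A0']
      refine le_trans ?_ hbd
      refine Nat.cast_le.2 (Finset.card_le_card fun g hg => ?_)
      by_contra hb
      obtain ⟨c1, c2⟩ := Finset.mem_filter.1 hg
      have c3 := (Finset.mem_filter.1 c2).2
      rw [hβ1 g hb v hv, ← (Finset.mem_filter.1 c1).2] at c3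
      exact h _ c3
    · intro h
      rw [le_div_iff₀ A0']
      have c0 : A ⊆ (A.filter fun g => (g + fun s => (v s : ZMod M)) ∈ A) ∪ bd Φ M := by
        intro g hg
        by_cases hb : g ∈ bd Φ M
        · exact Finset.mem_union_right _ hb
        · refine Finset.mem_union_left _ (Finset.mem_filter.2 ⟨hg, Finset.mem_filter.2
            ⟨Finset.mem_univ _, ?_⟩⟩)
          rw [hβ1 g hb v hv, h, add_zero]
          exact (Finset.mem_filter.1 hg).2
      have c1 := (Finset.card_le_card c0).trans (Finset.card_union_le _ _)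
      have c2 : (A.card : ℝ) ≤ (A.filter fun g => (g + fun s => (v s : ZMod M)) ∈ A).card +
          (bd Φ M).card := by exact_mod_cast c1
      linarith

end Pool.Agent.H.MP_fc94d9_co
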