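import Mathlib
import Pool.Agent.H.MP_fc94d9_co.I
open MeasureTheory Set Filter Topology ProbabilityTheory
open scoped ENNReal ComplexConjugate
namespace Pool.Agent.H.MP_fc94d9_co

variable {Γ : Type} [Field Γ] [CharZero Γ] [Countable Γ]

omit [Field Γ] [CharZero Γ] in
theorem cint {f : (Γ → T) → ℝ} (hf : Continuous f) :
    Continuous fun μ : ProbabilityMeasure (Γ → T) => ∫ x, f x ∂μ :=
  ProbabilityMeasure.continuous_integral_boundedContinuousFunction
    (BoundedContinuousFunction.mkOfCompact ⟨f, hf⟩)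

omit [Field Γ] [CharZero Γ] in
theorem integ {f : (Γ → T) → ℝ} (hf : Continuous f) (μ : Measure (Γ → T)) [IsFiniteMeasure μ] :
    Integrable f μ :=
  (BoundedContinuousFunction.mkOfCompact ⟨f, hf⟩).integrable μ

omit [Field Γ] [CharZero Γ] in
theorem closed_atom (c : ℝ≥0∞) :
    IsClosed {μ : ProbabilityMeasure (Γ → T) | c ≤ (μ : Measure (Γ → T)) {0}} := by
  refine isClosed_of_closure_subset fun μ hμ => ?_
  have hne := mem_closure_iff_nhdsWithin_neBot.1 hμ
  have h1 := ProbabilityMeasure.limsup_measure_closed_le_of_tendsto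
    (L := 𝓝[{μ : ProbabilityMeasure (Γ → T) | c ≤ (μ : Measure (Γ → T)) {0}}] μ) (μs := id)
    (tendsto_id.mono_left nhdsWithin_le_nhds) (isClosed_singleton (x := (0 : Γ → T)))
  refine le_trans (le_limsup_of_frequently_le ?_) h1
  exact Eventually.frequently self_mem_nhdsWithin

omit [CharZero Γ] [Countable Γ] in
theorem cont1 (s : Γ) : Continuous fun x : Γ → T => (ec (x s)).re :=
  Complex.continuous_re.comp (cont_ec.comp (continuous_apply s))

omit [CharZero Γ] [Countable Γ] in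
theorem cont2 (a b : Γ) : Continuous fun x : Γ → T => (ec (x a + x b - x (a + b))).re :=
  Complex.continuous_re.comp (cont_ec.comp (by fun_prop))

def Good (ι : Γ →+* ℂ) (k : ℕ) (μ : ProbabilityMeasure (Γ → T)) : Prop :=
  (k : ℝ≥0∞)⁻¹ ≤ (μ : Measure (Γ → T)) {0} ∧
    (∀ s, (∃ n : ℕ, ‖ι s‖ = 2 ^ n) → ∫ x, (ec (x s)).re ∂(μ : Measure (Γ → T)) ≤ 0) ∧
    ∀ a b, 1 ≤ ∫ x, (ec (x a + x b - x (a + b))).re ∂(μ : Measure (Γ → T))

omit [CharZero Γ] in
theorem closed_good (ι : Γ →+* ℂ) (k : ℕ) : IsClosed {μ | Good ι k μ} := by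
  refine (closed_atom _).inter (IsClosed.inter ?_ ?_)
  · change IsClosed {μ : ProbabilityMeasure (Γ → T) | ∀ s, (∃ n : ℕ, ‖ι s‖ = 2 ^ n) →
      ∫ x, (ec (x s)).re ∂(μ : Measure (Γ → T)) ≤ 0}
    simp only [setOf_forall]
    exact isClosed_iInter fun s => isClosed_iInter fun _ =>
      isClosed_le (cint (cont1 s)) continuous_const
  · change IsClosed {μ : ProbabilityMeasure (Γ → T) | ∀ a b,
      1 ≤ ∫ x, (ec (x a + x b - x (a + b))).re ∂(μ : Measure (Γ → T))}
    simp only [setOf_forall]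
    exact isClosed_iInter fun a => isClosed_iInter fun b =>
      isClosed_le continuous_const (cint (cont2 a b))

theorem sum_sing {I A : Type} [Fintype I] [DecidableEq I] [AddCommGroup A] (f : I → A) (i : I) :
    ∑ s, (Pi.single i 1 : I → ℤ) s • f s = f i := by
  simp [Pi.single_apply, ite_smul]

omit [CharZero Γ] in
theorem exists_good (ι : Γ →+* ℂ) {k : ℕ} (col : Γ → Fin k)
    (hcol : ∀ a s, (∃ n : ℕ, ‖ι s‖ = 2 ^ n) → col (a + s) ≠ col a) : ∃ μ, Good ι k μ := by
  classical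
  obtain ⟨μ, h1, h2⟩ := (closed_atom (Γ := Γ) (k : ℝ≥0∞)⁻¹).isCompact.inter_iInter_nonempty
    (fun i : (Γ × Γ) × ℕ => {μ : ProbabilityMeasure (Γ → T) | ((∃ n : ℕ, ‖ι i.1.1‖ = 2 ^ n) →
      ∫ x, (ec (x i.1.1)).re ∂(μ : Measure (Γ → T)) ≤ 1 / ((i.2 : ℝ) + 1))} ∩
      {μ | 1 - 1 / ((i.2 : ℝ) + 1) ≤
        ∫ x, (ec (x i.1.1 + x i.1.2 - x (i.1.1 + i.1.2))).re ∂(μ : Measure (Γ → T))})
    (fun i => by
      refine IsClosed.inter ?_ (isClosed_le continuous_const (cint (cont2 _ _)))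
      rw [setOf_forall]
      exact isClosed_iInter fun _ => isClosed_le (cint (cont1 _)) continuous_const)
    (fun u => by
      set Φ : Finset Γ := u.biUnion fun i => {i.1.1, i.1.2, i.1.1 + i.1.2} with hΦ
      obtain ⟨μ, h1, h2⟩ := fin_step col Φ (ε := 1 / (((u.sup Prod.snd : ℕ) : ℝ) + 1))
        (by positivity)
      refine ⟨μ, h1, mem_iInter₂.2 fun i hi => ?_⟩
      have a1 : i.1.1 ∈ Φ := Finset.mem_biUnion.2 ⟨i, hi, by simp⟩
      have a2 : i.1.2 ∈ Φ := Finset.mem_biUnion.2 ⟨i, hi, by simp⟩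
      have a3 : i.1.1 + i.1.2 ∈ Φ := Finset.mem_biUnion.2 ⟨i, hi, by simp⟩
      have a4 : 1 / (((u.sup Prod.snd : ℕ) : ℝ) + 1) ≤ 1 / ((i.2 : ℝ) + 1) := by
        have : i.2 ≤ u.sup Prod.snd := Finset.le_sup (f := Prod.snd) hi
        gcongr
      constructor
      · intro hs
        have b1 := (h2 (Pi.single ⟨_, a1⟩ 1) fun s => by
          rw [Pi.single_apply]; split_ifs <;> norm_num).1
        simp only [sum_sing] at b1
        exact (b1 fun a => hcol a _ hs).trans a4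
      · have b1 := (h2 (Pi.single ⟨_, a1⟩ 1 + Pi.single ⟨_, a2⟩ 1 - Pi.single ⟨_, a3⟩ 1)
          fun s => by
            simp only [Pi.sub_apply, Pi.add_apply, Pi.single_apply]; split_ifs <;> norm_num).2
        simp only [Pi.sub_apply, Pi.add_apply, sub_smul, add_smul, Finset.sum_sub_distrib,
          Finset.sum_add_distrib, sum_sing] at b1
        exact le_trans (by linarith) (b1 (sub_self _)))
  have h3 := mem_iInter.1 h2
  refine ⟨μ, h1, fun s hs => ?_, fun a b => ?_⟩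
  · exact ge_of_tendsto' tendsto_one_div_add_atTop_nhds_zero_nat fun n => (h3 ((s, s), n)).1 hs
  · have := (tendsto_one_div_add_atTop_nhds_zero_nat (𝕜 := ℝ)).const_sub 1
    rw [sub_zero] at this
    exact le_of_tendsto' this fun n => (h3 ((a, b), n)).2

def mu (h : Γ) (x : Γ → T) : Γ → T := fun z => x (h * z)

omit [CharZero Γ] [Countable Γ] in
theorem cont_mu (h : Γ) : Continuous (mu h) := continuous_pi fun z => continuous_apply (h * z)

omit [CharZero Γ] [Countable Γ] in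
theorem meas_mu (h : Γ) : Measurable (mu h) :=
  measurable_pi_lambda _ fun z => measurable_pi_apply (h * z)

noncomputable def avg (h : Γ) (N : ℕ) (μ : ProbabilityMeasure (Γ → T)) :
    ProbabilityMeasure (Γ → T) :=
  ⟨((N + 1 : ℕ) : ℝ≥0∞)⁻¹ • ∑ i ∈ Finset.range (N + 1), (μ : Measure (Γ → T)).map (mu (h ^ i)), ⟨by
    simp only [Measure.smul_apply, Measure.coe_finsetSum, Finset.sum_apply,
      Measure.map_apply (meas_mu _) MeasurableSet.univ, preimage_univ, measure_univ,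
      Finset.sum_const, Finset.card_range, nsmul_eq_mul, mul_one, smul_eq_mul]
    exact ENNReal.inv_mul_cancel (by simp) (by simp)⟩⟩

omit [CharZero Γ] in
theorem int_avg (h : Γ) (N : ℕ) (μ : ProbabilityMeasure (Γ → T)) {f : (Γ → T) → ℝ}
    (hf : Continuous f) : ∫ x, f x ∂(avg h N μ : Measure (Γ → T)) = ((N : ℝ) + 1)⁻¹ *
      ∑ i ∈ Finset.range (N + 1), ∫ x, f (mu (h ^ i) x) ∂(μ : Measure (Γ → T)) := by
  simp only [avg, ProbabilityMeasure.coe_mk]
  rw [integral_smul_measure, integral_finsetSum_measure fun i _ => integ hf _, smul_eq_mul,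
    ENNReal.toReal_inv, ENNReal.toReal_natCast, Nat.cast_succ]
  congr 1
  exact Finset.sum_congr rfl fun i _ =>
    integral_map (meas_mu _).aemeasurable hf.measurable.aestronglyMeasurable

omit [CharZero Γ] in
theorem good_avg {ι : Γ →+* ℂ} {k : ℕ} {μ : ProbabilityMeasure (Γ → T)} (hμ : Good ι k μ) {h : Γ}
    (hh : ∃ n : ℕ, ‖ι h‖ = 2 ^ n) (N : ℕ) : Good ι k (avg h N μ) := by
  obtain ⟨n, hn⟩ := hh
  have N0 : (0 : ℝ) < (N : ℝ) + 1 := by positivity
  refine ⟨?_, fun s ⟨n', hs⟩ => ?_, fun a b => ?_⟩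
  · simp only [avg, ProbabilityMeasure.coe_mk, Measure.smul_apply, Measure.coe_finsetSum,
      Finset.sum_apply, smul_eq_mul]
    have : ∀ i ∈ Finset.range (N + 1),
        (k : ℝ≥0∞)⁻¹ ≤ ((μ : Measure (Γ → T)).map (mu (h ^ i))) {0} := by
      intro i _
      rw [Measure.map_apply (meas_mu _) (measurableSet_singleton _)]
      refine hμ.1.trans (measure_mono ?_)
      rintro _ rfl; rfl
    calc (k : ℝ≥0∞)⁻¹ = ((N + 1 : ℕ) : ℝ≥0∞)⁻¹ * ∑ _i ∈ Finset.range (N + 1), (k : ℝ≥0∞)⁻¹ := by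
          rw [Finset.sum_const, Finset.card_range, nsmul_eq_mul, ← mul_assoc,
            ENNReal.inv_mul_cancel (by simp) (by simp), one_mul]
      _ ≤ _ := mul_le_mul_right (Finset.sum_le_sum this) _
  · rw [int_avg h N μ (cont1 s)]
    refine mul_nonpos_of_nonneg_of_nonpos (by positivity) (Finset.sum_nonpos fun i _ => ?_)
    exact hμ.2.1 (h ^ i * s) ⟨n * i + n', by
      rw [map_mul, map_pow, norm_mul, norm_pow, hn, hs, pow_add, pow_mul]⟩
  · rw [int_avg h N μ (cont2 a b), le_inv_mul_iff₀ N0]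
    have := Finset.card_nsmul_le_sum (Finset.range (N + 1)) (fun i => ∫ x,
      (ec (mu (h ^ i) x a + mu (h ^ i) x b - mu (h ^ i) x (a + b))).re ∂(μ : Measure (Γ → T))) 1
      fun i _ => by simpa only [mu, mul_add] using hμ.2.2 (h ^ i * a) (h ^ i * b)
    simpa using this

def Inv (h : Γ) (ε : ℝ) (μ : ProbabilityMeasure (Γ → T)) : Prop :=
  ∀ f : (Γ → T) → ℝ, Continuous f → ∀ C : ℝ, (∀ x, |f x| ≤ C) →
    |∫ x, f (mu h x) ∂(μ : Measure (Γ → T)) - ∫ x, f x ∂(μ : Measure (Γ → T))| ≤ ε * C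

omit [CharZero Γ] in
theorem closed_inv (h : Γ) (ε : ℝ) : IsClosed {μ | Inv h ε μ} := by
  simp only [Inv, setOf_forall]
  exact isClosed_iInter fun f => isClosed_iInter fun hf => isClosed_iInter fun C =>
    isClosed_iInter fun _ =>
      isClosed_le ((cint (hf.comp (cont_mu h))).sub (cint hf)).abs continuous_const

omit [CharZero Γ] in
theorem inv_self (h : Γ) (N : ℕ) (μ : ProbabilityMeasure (Γ → T)) :
    Inv h (2 / ((N : ℝ) + 1)) (avg h N μ) := by
  intro f hf C hC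
  have N0 : (0 : ℝ) < (N : ℝ) + 1 := by positivity
  have h1 : ∀ i x, mu h (mu (h ^ i) x) = mu (h ^ (i + 1)) x := fun i x => by
    funext z; simp only [mu, pow_succ, mul_assoc]
  have h2 : ∀ i, |∫ x, f (mu (h ^ i) x) ∂(μ : Measure (Γ → T))| ≤ C := fun i => by
    have := norm_integral_le_of_norm_le_const (μ := (μ : Measure (Γ → T)))
      (f := fun x => f (mu (h ^ i) x)) (C := C) (Eventually.of_forall fun x => hC _)
    simpa using this
  rw [int_avg h N μ (f := fun x => f (mu h x)) (hf.comp (cont_mu h)), int_avg h N μ hf, ← mul_sub,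
    ← Finset.sum_sub_distrib]
  simp only [h1]
  rw [Finset.sum_range_sub (fun i => ∫ x, f (mu (h ^ i) x) ∂(μ : Measure (Γ → T))), abs_mul,
    abs_of_pos (inv_pos.2 N0), inv_mul_le_iff₀ N0]
  refine (abs_sub _ _).trans ?_
  have : ((N : ℝ) + 1) * (2 / ((N : ℝ) + 1) * C) = C + C := by field_simp; ring
  rw [this]
  exact add_le_add (h2 _) (h2 _)

omit [CharZero Γ] in
theorem inv_avg {h : Γ} {ε : ℝ} {μ : ProbabilityMeasure (Γ → T)} (hμ : Inv h ε μ) (g : Γ) (N : ℕ) :
    Inv h ε (avg g N μ) := by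
  intro f hf C hC
  have N0 : (0 : ℝ) < (N : ℝ) + 1 := by positivity
  have h1 : ∀ i x, mu h (mu (g ^ i) x) = mu (g ^ i) (mu h x) := fun i x => by
    funext z; simp only [mu, mul_left_comm]
  rw [int_avg g N μ (f := fun x => f (mu h x)) (hf.comp (cont_mu h)), int_avg g N μ hf, ← mul_sub,
    ← Finset.sum_sub_distrib, abs_mul, abs_of_pos (inv_pos.2 N0), inv_mul_le_iff₀ N0]
  refine (Finset.abs_sum_le_sum_abs _ _).trans ?_
  simp only [h1]
  have := Finset.sum_le_card_nsmul (Finset.range (N + 1)) _ (ε * C) fun i _ =>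
    hμ (fun x => f (mu (g ^ i) x)) (hf.comp (cont_mu _)) C fun x => hC _
  simpa using this

omit [CharZero Γ] in
theorem exists_inv {ι : Γ →+* ℂ} {k : ℕ} (h0 : ∃ μ, Good ι k μ) :
    ∃ μ, Good ι k μ ∧ SInv ι (μ : Measure (Γ → T)) := by
  classical
  obtain ⟨μ, h1, h2⟩ := (closed_good ι k).isCompact.inter_iInter_nonempty
    (fun i : Γ × ℕ => {μ : ProbabilityMeasure (Γ → T) | (∃ n : ℕ, ‖ι i.1‖ = 2 ^ n) →
      Inv i.1 (2 / ((i.2 : ℝ) + 1)) μ})
    (fun i => by
      rw [setOf_forall]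
      exact isClosed_iInter fun _ => closed_inv _ _)
    (fun u => by
      induction u using Finset.induction_on with
      | empty => obtain ⟨μ, hμ⟩ := h0; exact ⟨μ, hμ, by simp⟩
      | insert i u hi ih =>
        obtain ⟨μ, a1, a2⟩ := ih
        rw [Finset.set_biInter_insert]
        by_cases hs : ∃ n : ℕ, ‖ι i.1‖ = 2 ^ n
        · exact ⟨avg i.1 i.2 μ, good_avg a1 hs _, fun _ => inv_self _ _ _,
            mem_iInter₂.2 fun j hj hj' => inv_avg (mem_iInter₂.1 a2 j hj hj') _ _⟩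
        · exact ⟨μ, a1, fun h => (hs h).elim, a2⟩)
  refine ⟨μ, h1, fun h hh => ⟨meas_mu h, ?_⟩⟩
  change (μ : Measure (Γ → T)).map (mu h) = μ
  refine ext_of_forall_integral_eq_of_IsFiniteMeasure fun f => ?_
  rw [integral_map (meas_mu h).aemeasurable f.continuous.measurable.aestronglyMeasurable,
    ← sub_eq_zero, ← abs_nonpos_iff]
  have := ((tendsto_one_div_add_atTop_nhds_zero_nat (𝕜 := ℝ)).const_mul 2).mul_const ‖f‖
  rw [mul_zero, zero_mul] at this
  refine ge_of_tendsto' this fun n => ?_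
  rw [mul_one_div]
  exact mem_iInter.1 h2 (h, n) hh f f.continuous ‖f‖ fun x => f.norm_coe_le_norm x

theorem no_col (ι : Γ →+* ℂ) (w : ℕ → Γ) (hw : ∀ m, ι (w m) = Complex.I * (√(m : ℝ) : ℝ))
    {k : ℕ} (col : Γ → Fin k)
    (hcol : ∀ a s, (∃ n : ℕ, ‖ι s‖ = 2 ^ n) → col (a + s) ≠ col a) : False := by
  obtain ⟨μ, h1, h2⟩ := exists_inv (exists_good ι col hcol)
  have had : ∀ᵐ x ∂(μ : Measure (Γ → T)), Ad x := by
    simp only [Ad, ae_all_iff]
    intro a b
    have hb : ∀ u, (ec u).re ≤ 1 := fun u => (Complex.re_le_norm _).trans (norm_ec u).le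
    have i1 := integ (cont2 a b) (μ : Measure (Γ → T))
    have b1 := (integral_eq_zero_iff_of_nonneg (μ := (μ : Measure (Γ → T)))
      (f := fun x : Γ → T => 1 - (ec (x a + x b - x (a + b))).re)
      (fun x => sub_nonneg.2 (hb _)) ((integrable_const _).sub i1)).1 (by
        apply le_antisymm _ (integral_nonneg fun x => sub_nonneg.2 (hb _))
        rw [integral_sub (integrable_const _) i1]
        simpa using h1.2.2 a b)
    filter_upwards [b1] with x hx
    have c1 : (ec (x a + x b - x (a + b))).re = 1 := by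
      have : 1 - (ec (x a + x b - x (a + b))).re = 0 := hx
      linarith
    have c2 := Complex.sq_norm (ec (x a + x b - x (a + b)))
    rw [norm_ec, Complex.normSq_apply, c1] at c2
    have c3 : ec (x a + x b - x (a + b)) = 1 :=
      Complex.ext c1 (mul_self_eq_zero.1 (by linarith))
    exact (sub_eq_zero.1 (ec_eq_one c3)).symm
  have h3 := (step3 ι w hw _ had h2).trans (h1.2.1 1 ⟨0, by simp⟩)
  have h4 : (μ : Measure (Γ → T)) {0} = 0 :=
    (measureReal_eq_zero_iff (measure_ne_top _ _)).1 (le_antisymm h3 measureReal_nonneg)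
  have h5 := h1.1
  rw [h4] at h5
  simp at h5

theorem main : ¬ (∃ k : ℕ, ∃ c : EuclideanSpace ℝ (Fin 2) → Fin k,
      ∀ x y : EuclideanSpace ℝ (Fin 2), ∀ n : ℕ,
        dist x y = (2 : ℝ) ^ n → c x ≠ c y) := by
  rintro ⟨k, c, hc⟩
  have : Countable (algebraicClosure ℚ ℂ) :=
    ((Algebraic.countable ℚ ℂ).mono fun x hx => mem_algebraicClosure_iff.1 hx).to_subtype
  have hw : ∀ m : ℕ, Complex.I * (√(m : ℝ) : ℝ) ∈ algebraicClosure ℚ ℂ := by
    intro m
    refine mem_algebraicClosure_iff.2 (IsAlgebraic.of_pow two_pos ?_)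
    have : (Complex.I * (√(m : ℝ) : ℝ)) ^ 2 = ((-m : ℤ) : ℂ) := by
      rw [mul_pow, ← Complex.ofReal_pow, Real.sq_sqrt (by positivity)]; simp
    rw [this]
    exact isAlgebraic_int _
  refine no_col (algebraicClosure ℚ ℂ).val.toRingHom (fun m => ⟨_, hw m⟩) (fun _ => rfl)
    (fun z => c (Complex.orthonormalBasisOneI.repr z)) fun a s ⟨n, hn⟩ => hc _ _ n ?_
  rw [LinearIsometryEquiv.dist_map, dist_eq_norm, ← hn]
  simp

end Pool.Agent.H.MP_fc94d9_co
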